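import Pool.Agent.helper7.UG.Good

set_option autoImplicit false

/-!
# Counting prefixes, and the lower bound for the best inner product
-/

namespace Pool.Agent.helper7.UG

open Equiv

/-- The sequences which may follow the word `v` in `Λ`. -/
def sect : Set (ℕ → Fin 3) → List (Fin 3) → Set (ℕ → Fin 3)
  | Λ, [] => Λ
  | Λ, y :: v => sect (child Λ y) v

/-- The number of words `v` of length `n` for which the set of continuations has property `P`. -/
noncomputable def cnt (P : Set (ℕ → Fin 3) → Prop) (Λ : Set (ℕ → Fin 3)) (n : ℕ) : ℕ :=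
  Set.ncard {v : List (Fin 3) | v.length = n ∧ P (sect Λ v)}

theorem cnt_set_finite (P : Set (ℕ → Fin 3) → Prop) (Λ : Set (ℕ → Fin 3)) (n : ℕ) :
    {v : List (Fin 3) | v.length = n ∧ P (sect Λ v)}.Finite :=
  (List.finite_length_eq (Fin 3) n).subset fun _ hv => hv.1

theorem cnt_zero (P : Set (ℕ → Fin 3) → Prop) (Λ : Set (ℕ → Fin 3)) (h : P Λ) :
    cnt P Λ 0 = 1 := by
  have : {v : List (Fin 3) | v.length = 0 ∧ P (sect Λ v)} = {[]} := by
    ext v
    simp only [Set.mem_ofPred_eq, Set.mem_singleton_iff, List.length_eq_zero_iff]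
    constructor
    · exact fun h => h.1
    · rintro rfl
      exact ⟨rfl, h⟩
  rw [cnt, this, Set.ncard_singleton]

theorem cnt_succ (P : Set (ℕ → Fin 3) → Prop) (Λ : Set (ℕ → Fin 3)) (n : ℕ) :
    cnt P Λ (n + 1) = ∑ y, cnt P (child Λ y) n := by
  classical
  have h1 : ∀ y, (fun v => y :: v) '' {v : List (Fin 3) | v.length = n ∧ P (sect (child Λ y) v)} =
      {v : List (Fin 3) | (v.length = n + 1 ∧ P (sect Λ v)) ∧ v.head? = some y} := by
    intro y
    ext v
    simp only [Set.mem_image, Set.mem_ofPred_eq]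
    constructor
    · rintro ⟨w, ⟨hw, hP⟩, rfl⟩
      exact ⟨⟨by simp [hw], hP⟩, rfl⟩
    · rintro ⟨⟨hv, hP⟩, hh⟩
      cases v with
      | nil => simp at hv
      | cons x w =>
        have hx : x = y := by simpa using hh
        subst hx
        exact ⟨w, ⟨by simpa using hv, hP⟩, rfl⟩
  have h2 : ∀ y, cnt P (child Λ y) n =
      {v : List (Fin 3) | (v.length = n + 1 ∧ P (sect Λ v)) ∧ v.head? = some y}.ncard := by
    intro y
    rw [← h1, Set.ncard_image_of_injective _ (List.cons_injective)]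
    rfl
  simp only [h2]
  set T := {v : List (Fin 3) | v.length = n + 1 ∧ P (sect Λ v)} with hT
  have hTf : T.Finite := cnt_set_finite P Λ (n + 1)
  have h3 : ∀ y, {v : List (Fin 3) | v ∈ T ∧ v.head? = some y}.ncard =
      (hTf.toFinset.filter fun v => v.head? = some y).card := by
    intro y
    rw [← Set.ncard_coe_finset]
    congr 1
    ext v
    simp
  have h4 : cnt P Λ (n + 1) = hTf.toFinset.card := Set.ncard_eq_toFinset_card _ _
  rw [h4]
  show _ = ∑ y, {v : List (Fin 3) | v ∈ T ∧ v.head? = some y}.ncard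
  simp only [h3]
  rw [Finset.card_eq_sum_card_fiberwise (f := fun v => v.head?)
    (t := Finset.univ.image (some : Fin 3 → Option (Fin 3)))]
  · rw [Finset.sum_image]
    intro x _ y _ h
    exact Option.some.inj h
  · intro v hv
    have hv2 : v ∈ T := by simpa using hv
    cases v with
    | nil => simp [hT] at hv2
    | cons x w => simp

/-- The partial sums. -/
noncomputable def S (P : Set (ℕ → Fin 3) → Prop) (Λ : Set (ℕ → Fin 3)) (n : ℕ) : ℝ :=
  ∑ j ∈ Finset.range n, (2 : ℝ) ^ j / cnt P Λ j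

theorem two_step (x y : ℝ) (hx : 0 ≤ x) (hy : 0 ≤ y) (_hxy : x + y ≤ 1) :
    (1 - (x + y)) / (1 + (x + y)) ≤ (1 - x) / (1 + x) * ((1 - y) / (1 + y)) := by
  rw [div_mul_div_comm, div_le_div_iff₀ (by positivity) (by positivity)]
  nlinarith [mul_nonneg (mul_nonneg hx hy) (add_nonneg hx hy)]

theorem three_step (x : Fin 3 → ℝ) (hx : ∀ y, 0 ≤ x y) (h : ∑ y, x y ≤ 1) :
    (1 - ∑ y, x y) / (1 + ∑ y, x y) ≤ ∏ y, (1 - x y) / (1 + x y) := by
  rw [Fin.sum_univ_three] at h ⊢
  rw [Fin.prod_univ_three]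
  have h0 := hx 0
  have h1 := hx 1
  have h2 := hx 2
  refine (two_step (x 0 + x 1) (x 2) (by positivity) h2 h).trans ?_
  refine mul_le_mul_of_nonneg_right (two_step (x 0) (x 1) h0 h1 (by linarith)) ?_
  exact div_nonneg (by linarith) (by linarith)

/-- The superadditivity inequality. -/
theorem superadd {ι : Type} (U : Finset ι) (n : ℕ) (w : ℕ → ℝ) (X : ι → ℕ → ℝ)
    (hw : ∀ j, 0 ≤ w j) (hX : ∀ u ∈ U, ∀ j, 0 < X u j)
    (hσ : ∀ u ∈ U, 0 < ∑ j ∈ Finset.range n, w j / X u j) :
    (∑ u ∈ U, (∑ j ∈ Finset.range n, w j / X u j)⁻¹) *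
      (∑ j ∈ Finset.range n, w j / ∑ u ∈ U, X u j) ≤ 1 := by
  rcases U.eq_empty_or_nonempty with rfl | hU
  · simp
  set σ : ι → ℝ := fun u => ∑ j ∈ Finset.range n, w j / X u j with hσdef
  set L : ℝ := ∑ u ∈ U, (σ u)⁻¹ with hL
  set R : ℝ := ∑ j ∈ Finset.range n, w j / ∑ u ∈ U, X u j with hR
  have hL0 : 0 < L := Finset.sum_pos (fun u hu => inv_pos.2 (hσ u hu)) hU
  have h1 : L ^ 2 * R ≤ L := by
    calc L ^ 2 * R = ∑ j ∈ Finset.range n, w j * (L ^ 2 / ∑ u ∈ U, X u j) := by
          rw [hR, Finset.mul_sum]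
          refine Finset.sum_congr rfl fun j _ => ?_
          ring
      _ ≤ ∑ j ∈ Finset.range n, w j * ∑ u ∈ U, ((σ u)⁻¹) ^ 2 / X u j := by
          refine Finset.sum_le_sum fun j _ => mul_le_mul_of_nonneg_left ?_ (hw j)
          exact Finset.sq_sum_div_le_sum_sq_div U _ fun u hu => hX u hu j
      _ = ∑ u ∈ U, ((σ u)⁻¹) ^ 2 * σ u := by
          simp only [Finset.mul_sum, hσdef]
          rw [Finset.sum_comm]
          refine Finset.sum_congr rfl fun u _ => Finset.sum_congr rfl fun j _ => ?_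
          ring
      _ = L := by
          rw [hL]
          refine Finset.sum_congr rfl fun u hu => ?_
          have := hσ u hu
          field_simp
  have h2 : L * (L * R) ≤ L * 1 := by
    have : L * (L * R) = L ^ 2 * R := by ring
    rw [this, mul_one]
    exact h1
  exact le_of_mul_le_mul_left h2 hL0

/-! ### The best inner product -/

/-- The supremum of the inner products. -/
noncomputable def tau (Λ : Set (ℕ → Fin 3)) : ℝ := sSup {t | Good (NL Λ) t}

theorem Good.le_one {Λ : Set (ℕ → Fin 3)} {t : ℝ} (h : Good (NL Λ) t) : t ≤ 1 := by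
  obtain ⟨X, ρ, q, A, hN, _, h0, hA, h1, _, ht⟩ := h
  have hinv : ∀ x, ρ (FreeGroup.of 0) (ρ (FreeGroup.of 0) x) = x := by
    intro x
    rw [← Perm.mul_apply, ← map_mul, hN _ (of_sq_mem Λ 0)]
    rfl
  obtain ⟨u, B, hu0, huB, hqB, hu1, hqB1, huR, huq⟩ :=
    average (ρ (FreeGroup.of 0)) hinv q A t h0 hA h1 ht
  have h2 : ∑ x ∈ B, u x * q x ≤ 1 := by
    have h3 : ∑ x ∈ B, u x * q x ≤ ∑ x ∈ B, (u x ^ 2 + q x ^ 2) / 2 := by
      refine Finset.sum_le_sum fun x _ => ?_
      nlinarith [sq_nonneg (u x - q x)]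
    rw [← Finset.sum_div, Finset.sum_add_distrib, hu1, hqB1] at h3
    linarith
  rw [huq] at h2
  have h4 : (1 + t) / 2 ≤ 1 := by
    by_contra h5
    rw [not_le] at h5
    have : 1 < Real.sqrt ((1 + t) / 2) := by
      rw [Real.lt_sqrt (by norm_num)]
      linarith
    linarith
  linarith

theorem good_bdd (Λ : Set (ℕ → Fin 3)) : BddAbove {t | Good (NL Λ) t} :=
  ⟨1, fun _ ht => Good.le_one ht⟩

theorem good_nonempty (Λ : Set (ℕ → Fin 3)) : {t | Good (NL Λ) t}.Nonempty := good_base Λ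

theorem Good.le_tau {Λ : Set (ℕ → Fin 3)} {t : ℝ} (h : Good (NL Λ) t) : t ≤ tau Λ :=
  le_csSup (good_bdd Λ) h

theorem tau_le_one (Λ : Set (ℕ → Fin 3)) : tau Λ ≤ 1 :=
  csSup_le (good_nonempty Λ) fun _ ht => Good.le_one ht

theorem tau_nonneg (Λ : Set (ℕ → Fin 3)) : 0 ≤ tau Λ := by
  obtain ⟨t, ht⟩ := good_base Λ
  exact ht.nonneg.trans ht.le_tau

theorem nonempty_of_tau_lt {Λ : Set (ℕ → Fin 3)} (h : tau Λ < 1) : Λ.Nonempty := by
  by_contra h1
  exact absurd (good_empty Λ h1).le_tau (not_le.2 h)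

theorem tau_step (Λ : Set (ℕ → Fin 3)) (hΛ : Λ.Nonempty) :
    ∏ y, (1 + tau (child Λ y)) / 2 ≤ tau Λ := by
  have h1 : (fun y => tau (child Λ y)) ∈
      closure (Set.pi Set.univ fun y => {t | Good (NL (child Λ y)) t}) := by
    rw [closure_pi_set]
    intro y _
    exact csSup_mem_closure (good_nonempty _) (good_bdd _)
  have h2 : Continuous fun t : Fin 3 → ℝ => ∏ y, (1 + t y) / 2 := by
    refine continuous_finsetProd _ fun y _ => ?_
    exact (continuous_const.add (continuous_apply y)).div_const 2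
  have h3 : (Set.pi Set.univ fun y => {t | Good (NL (child Λ y)) t}) ⊆
      (fun t : Fin 3 → ℝ => ∏ y, (1 + t y) / 2) ⁻¹' Set.Iic (tau Λ) := by
    intro t ht
    exact (good_step Λ hΛ t fun y => ht y (Set.mem_univ y)).le_tau
  exact (closure_minimal h3 (isClosed_Iic.preimage h2)) h1

/-- The property of having `tau` less than one. -/
def Bad (Λ : Set (ℕ → Fin 3)) : Prop := tau Λ < 1

theorem bad_child {Λ : Set (ℕ → Fin 3)} (h : Bad Λ) : ∃ y, Bad (child Λ y) := by
  by_contra h1
  push Not at h1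
  have h2 : ∀ y, tau (child Λ y) = 1 := fun y =>
    le_antisymm (tau_le_one _) (not_lt.1 (h1 y))
  have h3 := tau_step Λ (nonempty_of_tau_lt h)
  simp only [h2] at h3
  norm_num at h3
  exact absurd h (not_lt.2 h3)

theorem bad_cnt_pos (n : ℕ) : ∀ Λ : Set (ℕ → Fin 3), Bad Λ → 0 < cnt Bad Λ n := by
  induction n with
  | zero =>
    intro Λ h
    rw [cnt_zero Bad Λ h]
    exact one_pos
  | succ n ih =>
    intro Λ h
    obtain ⟨y, hy⟩ := bad_child h
    rw [cnt_succ]
    exact Finset.sum_pos' (fun _ _ => Nat.zero_le _) ⟨y, Finset.mem_univ y, ih _ hy⟩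

theorem S_one_le {Λ : Set (ℕ → Fin 3)} (h : Bad Λ) (n : ℕ) : 1 ≤ S Bad Λ (n + 1) := by
  rw [S, Finset.sum_range_succ', cnt_zero Bad Λ h]
  have : 0 ≤ ∑ k ∈ Finset.range n, (2 : ℝ) ^ (k + 1) / cnt Bad Λ (k + 1) :=
    Finset.sum_nonneg fun k _ => by positivity
  norm_num
  exact this

theorem S_succ {Λ : Set (ℕ → Fin 3)} (h : Bad Λ) (n : ℕ) :
    S Bad Λ (n + 2) = 1 + 2 * ∑ j ∈ Finset.range (n + 1), (2 : ℝ) ^ j / cnt Bad Λ (j + 1) := by
  rw [S, Finset.sum_range_succ', cnt_zero Bad Λ h, Finset.mul_sum, add_comm]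
  congr 1
  · norm_num
  · refine Finset.sum_congr rfl fun j _ => ?_
    rw [pow_succ]
    ring

/-- The main estimate. -/
theorem tau_bound (n : ℕ) : ∀ Λ : Set (ℕ → Fin 3), Bad Λ →
    1 - 4 / (1 + S Bad Λ (n + 1)) ≤ tau Λ := by
  induction n with
  | zero =>
    intro Λ h
    have h1 : S Bad Λ (0 + 1) = 1 := by
      rw [S, zero_add, Finset.sum_range_one, cnt_zero Bad Λ h]
      norm_num
    rw [h1]
    have := tau_nonneg Λ
    norm_num
    linarith
  | succ n ih =>
    intro Λ h
    classical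
    set U : Finset (Fin 3) := Finset.univ.filter fun y => Bad (child Λ y) with hU
    set σ : Fin 3 → ℝ := fun y => S Bad (child Λ y) (n + 1) with hσ
    set x : Fin 3 → ℝ := fun y => if Bad (child Λ y) then (σ y)⁻¹ else 0 with hx
    set R : ℝ := ∑ j ∈ Finset.range (n + 1), (2 : ℝ) ^ j / cnt Bad Λ (j + 1) with hR
    have hσ1 : ∀ y, Bad (child Λ y) → 1 ≤ σ y := fun y hy => S_one_le hy n
    have hx0 : ∀ y, 0 ≤ x y := by
      intro y
      simp only [hx]
      split_ifs with h1
      · have := hσ1 y h1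
        positivity
      · exact le_rfl
    have hcntpos : ∀ j, (0 : ℝ) < cnt Bad Λ j := fun j => by
      exact_mod_cast bad_cnt_pos j Λ h
    have hRpos : 0 < R := Finset.sum_pos (fun j _ => div_pos (by positivity) (hcntpos _))
      ⟨0, by simp⟩
    have hK : ∑ y, x y = ∑ u ∈ U, (σ u)⁻¹ := by
      rw [hU, Finset.sum_filter]
    have hKR : (∑ y, x y) * R ≤ 1 := by
      have h1 := superadd U (n + 1) (fun j => (2 : ℝ) ^ j)
        (fun u j => (cnt Bad (child Λ u) j : ℝ)) (fun j => by positivity)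
        (fun u hu j => by
          exact_mod_cast bad_cnt_pos j (child Λ u) (Finset.mem_filter.1 hu).2)
        (fun u hu => by
          have := hσ1 u (Finset.mem_filter.1 hu).2
          exact lt_of_lt_of_le one_pos this)
      have h2 : (∑ u ∈ U, (∑ j ∈ Finset.range (n + 1),
          (2 : ℝ) ^ j / cnt Bad (child Λ u) j)⁻¹) = ∑ y, x y := hK.symm
      rw [h2] at h1
      refine le_trans (mul_le_mul_of_nonneg_left ?_ (Finset.sum_nonneg fun y _ => hx0 y)) h1
      refine Finset.sum_le_sum fun j _ => ?_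
      refine div_le_div_of_nonneg_left (by positivity) ?_ ?_
      · obtain ⟨y, hy⟩ := bad_child h
        refine Finset.sum_pos (fun u hu => ?_) ⟨y, Finset.mem_filter.2 ⟨Finset.mem_univ y, hy⟩⟩
        exact_mod_cast bad_cnt_pos j (child Λ u) (Finset.mem_filter.1 hu).2
      · rw [cnt_succ]
        push_cast
        exact Finset.sum_le_sum_of_subset_of_nonneg (Finset.subset_univ _)
          fun y _ _ => Nat.cast_nonneg _
    have hterm : ∀ y, (1 - x y) / (1 + x y) ≤ (1 + tau (child Λ y)) / 2 := by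
      intro y
      by_cases h1 : Bad (child Λ y)
      · have h2 := ih _ h1
        have h3 := hσ1 y h1
        have h4 : x y = (σ y)⁻¹ := by simp only [hx, if_pos h1]
        rw [h4]
        have h5 : (1 - (σ y)⁻¹) / (1 + (σ y)⁻¹) = 1 - 2 / (1 + σ y) := by
          have : σ y ≠ 0 := by linarith
          have : 1 + σ y ≠ 0 := by linarith
          field_simp
          ring
        rw [h5]
        have h6 : 4 / (1 + σ y) = 2 * (2 / (1 + σ y)) := by ring
        have h7 : 1 - 4 / (1 + σ y) ≤ tau (child Λ y) := h2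
        linarith
      · have h4 : x y = 0 := by simp only [hx, if_neg h1]
        have h5 : tau (child Λ y) = 1 := le_antisymm (tau_le_one _) (not_lt.1 h1)
        rw [h4, h5]
        norm_num
    rw [show n + 1 + 1 = n + 2 from rfl, S_succ h n]
    have h8 : 1 - 4 / (1 + (1 + 2 * R)) = (R - 1) / (R + 1) := by
      have : R + 1 ≠ 0 := by linarith
      have : 1 + (1 + 2 * R) ≠ 0 := by linarith
      field_simp
      ring
    rw [h8]
    by_cases hK1 : ∑ y, x y ≤ 1
    · refine le_trans ?_ (tau_step Λ (nonempty_of_tau_lt h))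
      have h9 : ∏ y, (1 - x y) / (1 + x y) ≤ ∏ y, (1 + tau (child Λ y)) / 2 := by
        refine Finset.prod_le_prod (fun y _ => ?_) fun y _ => hterm y
        have h10 : x y ≤ 1 :=
          (Finset.single_le_sum (fun z _ => hx0 z) (Finset.mem_univ y)).trans hK1
        have := hx0 y
        exact div_nonneg (by linarith) (by linarith)
      refine le_trans ?_ ((three_step x hx0 hK1).trans h9)
      have h11 : 0 ≤ ∑ y, x y := Finset.sum_nonneg fun y _ => hx0 y
      rw [div_le_div_iff₀ (by linarith) (by linarith)]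
      nlinarith
    · rw [not_le] at hK1
      have h12 : R ≤ 1 := by nlinarith
      have h13 : (R - 1) / (R + 1) ≤ 0 :=
        div_nonpos_of_nonpos_of_nonneg (by linarith) (by linarith)
      exact h13.trans (tau_nonneg Λ)

/-- If `tau` is less than one then the series converges. -/
theorem bad_summable {Λ : Set (ℕ → Fin 3)} (h : Bad Λ) :
    Summable fun n : ℕ => (2 : ℝ) ^ n / cnt Bad Λ n := by
  have h1 : 0 < 1 - tau Λ := sub_pos.2 h
  refine summable_of_sum_range_le (c := 4 / (1 - tau Λ)) (fun n => by positivity) fun n => ?_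
  have h2 := tau_bound n Λ h
  have h3 := S_one_le h n
  have h4 : S Bad Λ n ≤ S Bad Λ (n + 1) := by
    rw [S, S, Finset.sum_range_succ]
    have : (0 : ℝ) ≤ 2 ^ n / cnt Bad Λ n := by positivity
    linarith
  have h5 : 1 - tau Λ ≤ 4 / (1 + S Bad Λ (n + 1)) := by linarith
  have h6 : 1 + S Bad Λ (n + 1) ≤ 4 / (1 - tau Λ) := by
    rw [le_div_iff₀ (by linarith)] at h5 ⊢
    linarith
  have h7 : ∑ i ∈ Finset.range n, (2 : ℝ) ^ i / cnt Bad Λ i = S Bad Λ n := rfl
  rw [h7]
  linarith

end Pool.Agent.helper7.UG
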