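import Pool.Agent.helper7.UG.Folner

set_option autoImplicit false

/-!
# The two descriptions of amenability agree
-/

namespace Pool.Agent.helper7.UG

open Equiv

theorem exists_folner_set (Λ : Set (ℕ → Fin 3)) (h : tau Λ = 1) (κ : ℝ) (hκ : 0 < κ) :
    ∃ E : Finset (F4 ⧸ NL Λ), E.Nonempty ∧
      (bd E (QuotientGroup.mk (FreeGroup.of 0)) : ℝ) ≤ κ * E.card ∧
      ∀ i : Fin 4, i ≠ 0 → bd E (QuotientGroup.mk (FreeGroup.of i)) = 0 := by
  classical
  have h1 : 1 - κ ^ 2 / 8 < sSup {t | Good (NL Λ) t} := by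
    have h2 : sSup {t | Good (NL Λ) t} = 1 := h
    rw [h2]
    have : 0 < κ ^ 2 := by positivity
    linarith
  obtain ⟨t, htg, ht⟩ := exists_lt_of_lt_csSup (good_nonempty Λ) h1
  obtain ⟨X, ρ, q, A, hN, hfin, h0, hA, hq1, hV, hqt⟩ := htg
  have hinv : ∀ x, ρ (FreeGroup.of 0) (ρ (FreeGroup.of 0) x) = x := by
    intro x
    rw [← Perm.mul_apply, ← map_mul, hN _ (of_sq_mem Λ 0)]
    rfl
  obtain ⟨s, _, E, hE, hEb⟩ := exists_set (ρ (FreeGroup.of 0)) hinv q A t κ hκ h0 hA hq1 hqt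
    (by linarith)
  let ρ' : (F4 ⧸ NL Λ) →* Perm X := QuotientGroup.lift (NL Λ) ρ hN
  have hρ' : ∀ g : F4, ρ' (QuotientGroup.mk g) = ρ g := fun g => rfl
  have hfin' : ∀ x x', {g : F4 ⧸ NL Λ | ρ' g x = x'}.Finite := by
    intro x x'
    refine (hfin x x').subset ?_
    intro g hg
    obtain ⟨g0, rfl⟩ := QuotientGroup.mk_surjective g
    exact ⟨g0, hg, rfl⟩
  set a : F4 ⧸ NL Λ := QuotientGroup.mk (FreeGroup.of 0) with ha
  obtain ⟨x0, hx0, F, hF, hFb⟩ := exists_orbit ρ' a E κ hEb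
  obtain ⟨k, hk, hpb⟩ := pull_back ρ' hfin' x0
  obtain ⟨F', hF', hF'c⟩ := hpb F fun x hx => ((hF x).1 hx).2
  obtain ⟨D', hD', hD'c⟩ := hpb (F.filter fun x => ρ' a x ∉ F)
    fun x hx => ((hF x).1 (Finset.mem_filter.1 hx).1).2
  have e1 : {y | y ∈ F' ∧ a * y ∉ F'} = (D' : Set (F4 ⧸ NL Λ)) := by
    ext y
    rw [Finset.mem_coe, hD', Finset.mem_filter]
    show y ∈ F' ∧ a * y ∉ F' ↔ _
    rw [hF', hF', map_mul, Perm.mul_apply]
  have e2 : {x | x ∈ F ∧ ρ' a x ∉ F} = ((F.filter fun x => ρ' a x ∉ F : Finset X) : Set X) := by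
    ext x
    simp
  rw [e2, Set.ncard_coe_finset] at hFb
  have hkr : (0 : ℝ) < k := by exact_mod_cast hk
  have e3 : (bd F' a : ℝ) < κ * F'.card := by
    rw [bd, e1, Set.ncard_coe_finset, hD'c, hF'c]
    push_cast
    nlinarith
  refine ⟨F', ?_, e3.le, ?_⟩
  · rw [← Finset.card_pos]
    have h3 : (0 : ℝ) < κ * F'.card := lt_of_le_of_lt (Nat.cast_nonneg _) e3
    have h4 : (0 : ℝ) < F'.card := (mul_pos_iff_of_pos_left hκ).1 h3
    exact_mod_cast h4
  · intro i hi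
    have : {y | y ∈ F' ∧ (QuotientGroup.mk (FreeGroup.of i) : F4 ⧸ NL Λ) * y ∉ F'} = ∅ := by
      ext y
      simp only [Set.mem_ofPred_eq, Set.mem_empty_iff_false, iff_false, not_and, not_not]
      intro hy
      rw [hF', hF] at hy ⊢
      rw [map_mul, Perm.mul_apply, hρ']
      refine ⟨?_, (QuotientGroup.mk (FreeGroup.of i) : F4 ⧸ NL Λ) * y, ?_⟩
      · have h3 := hy.1
        rw [hE] at h3 ⊢
        rwa [hV i hi]
      · rw [map_mul, Perm.mul_apply, hρ']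
    rw [bd, this, Set.ncard_empty]

/-- If `tau` is one then there is a Følner sequence. -/
theorem hasFolner_of_tau (Λ : Set (ℕ → Fin 3)) (h : tau Λ = 1) : HasFolner (F4 ⧸ NL Λ) := by
  have h1 : ∀ n : ℕ, ∃ E : Finset (F4 ⧸ NL Λ), E.Nonempty ∧
      (bd E (QuotientGroup.mk (FreeGroup.of 0)) : ℝ) ≤ (1 / ((n : ℝ) + 1)) * E.card ∧
      ∀ i : Fin 4, i ≠ 0 → bd E (QuotientGroup.mk (FreeGroup.of i)) = 0 := fun n =>
    exists_folner_set Λ h _ (by positivity)
  choose E hne hbd hbd0 using h1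
  refine ⟨E, hne, fun g => ?_⟩
  obtain ⟨g0, rfl⟩ := QuotientGroup.mk_surjective g
  obtain ⟨C, hC⟩ := bd_bound (QuotientGroup.mk' (NL Λ)) g0
  have h2 : ∀ n, (Set.ncard (symmDiff ((fun x => (QuotientGroup.mk g0 : F4 ⧸ NL Λ) * x) ''
      (E n : Set (F4 ⧸ NL Λ))) (E n : Set (F4 ⧸ NL Λ))) : ℝ) / (E n).card ≤
      (2 * C) * (1 / ((n : ℝ) + 1)) := by
    intro n
    have hpos : (0 : ℝ) < (E n).card := by exact_mod_cast Finset.card_pos.2 (hne n)
    rw [div_le_iff₀ hpos]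
    have h3 := symm_le (E n) (QuotientGroup.mk g0 : F4 ⧸ NL Λ)
    have h4 : bd (E n) (QuotientGroup.mk g0 : F4 ⧸ NL Λ) ≤
        C * bd (E n) (QuotientGroup.mk (FreeGroup.of 0)) := by
      refine (hC (E n)).trans (le_of_eq ?_)
      congr 1
      rw [Finset.sum_eq_single (0 : Fin 4)]
      · rfl
      · intro i _ hi
        exact hbd0 n i hi
      · intro h5
        exact absurd (Finset.mem_univ _) h5
    have h5 : (Set.ncard (symmDiff ((fun x => (QuotientGroup.mk g0 : F4 ⧸ NL Λ) * x) ''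
      (E n : Set (F4 ⧸ NL Λ))) (E n : Set (F4 ⧸ NL Λ))) : ℝ) ≤
      2 * (C * bd (E n) (QuotientGroup.mk (FreeGroup.of 0))) := by
      exact_mod_cast h3.trans (Nat.mul_le_mul_left 2 h4)
    refine h5.trans ?_
    have h6 := hbd n
    have h7 : (0 : ℝ) ≤ C := Nat.cast_nonneg C
    nlinarith [mul_le_mul_of_nonneg_left h6 h7]
  refine squeeze_zero (fun n => by positivity) h2 ?_
  have h3 := tendsto_one_div_add_atTop_nhds_zero_nat (𝕜 := ℝ)
  simpa using h3.const_mul (2 * (C : ℝ))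

theorem exists_inv_set {M : Type} [Group M] [DecidableEq M] (s : Fin 4 → M)
    (hsq : ∀ i, s i * s i = 1)
    (hmul : ∀ i j k : Fin 4, i ≠ 0 → j ≠ 0 → k ≠ 0 → (∀ y, act k y = (act i y != act j y)) →
      s i * s j = s k) (E0 : Finset M) (hne : E0.Nonempty) (ε : ℝ) (hε : 0 < ε)
    (hsym : ∀ i, (Set.ncard (symmDiff ((fun x => s i * x) '' (E0 : Set M)) (E0 : Set M)) : ℝ) ≤
      ε / 4 * E0.card) :
    ∃ F : Finset M, F.Nonempty ∧ (∀ i, i ≠ 0 → ∀ x ∈ F, s i * x ∈ F) ∧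
      ((F.filter fun x => s 0 * x ∉ F).card : ℝ) ≤ ε * F.card := by
  set v : Fin 4 → M := fun j => if j = 0 then 1 else s j with hv
  have hv0 : v 0 = 1 := by simp [hv]
  have hvi : ∀ i, i ≠ 0 → v i = s i := fun i hi => by simp [hv, hi]
  have hdec : ∀ i j : Fin 4, i ≠ 0 → j ≠ 0 → i ≠ j →
      ∃ k : Fin 4, k ≠ 0 ∧ ∀ y, act k y = (act i y != act j y) := by decide
  have hclosed : ∀ i, i ≠ 0 → ∀ j, ∃ k, s i * v j = v k := by
    intro i hi j
    by_cases hj : j = 0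
    · exact ⟨i, by rw [hj, hv0, mul_one, hvi i hi]⟩
    · by_cases hij : i = j
      · exact ⟨0, by rw [← hij, hvi i hi, hsq, hv0]⟩
      · obtain ⟨k, hk, hk2⟩ := hdec i j hi hj hij
        exact ⟨k, by rw [hvi j hj, hvi k hk, hmul i j k hi hj hk hk2]⟩
  set F : Finset M := Finset.univ.biUnion fun j => E0.image fun x => v j * x with hF
  have hEF : E0 ⊆ F := by
    intro x hx
    rw [hF, Finset.mem_biUnion]
    exact ⟨0, Finset.mem_univ _, Finset.mem_image.2 ⟨x, hx, by rw [hv0, one_mul]⟩⟩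
  have hFinv : ∀ i, i ≠ 0 → ∀ x ∈ F, s i * x ∈ F := by
    intro i hi x hx
    rw [hF, Finset.mem_biUnion] at hx ⊢
    obtain ⟨j, _, hx⟩ := hx
    obtain ⟨y, hy, rfl⟩ := Finset.mem_image.1 hx
    obtain ⟨k, hk⟩ := hclosed i hi j
    exact ⟨k, Finset.mem_univ _, Finset.mem_image.2 ⟨y, hy, by rw [← hk, mul_assoc]⟩⟩
  have hsdfin : ∀ i, (symmDiff ((fun x => s i * x) '' (E0 : Set M)) (E0 : Set M)).Finite := by
    intro i
    refine ((E0.finite_toSet.image (fun x => s i * x)).union E0.finite_toSet).subset ?_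
    intro x hx
    rw [Set.mem_symmDiff] at hx
    rcases hx with hx | hx
    · exact Or.inl hx.1
    · exact Or.inr hx.1
  have hnew : ((F \ E0).card : ℝ) ≤ 3 * (ε / 4) * E0.card := by
    have h5 : F \ E0 ⊆ (Finset.univ.filter fun j : Fin 4 => j ≠ 0).biUnion
        fun j => (hsdfin j).toFinset := by
      intro x hx
      rw [Finset.mem_sdiff, hF, Finset.mem_biUnion] at hx
      obtain ⟨⟨j, _, hj⟩, hx2⟩ := hx
      obtain ⟨y, hy, rfl⟩ := Finset.mem_image.1 hj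
      have hj0 : j ≠ 0 := by
        rintro rfl
        rw [hv0, one_mul] at hx2
        exact hx2 hy
      rw [Finset.mem_biUnion]
      refine ⟨j, Finset.mem_filter.2 ⟨Finset.mem_univ _, hj0⟩, ?_⟩
      rw [Set.Finite.mem_toFinset, Set.mem_symmDiff]
      left
      refine ⟨⟨y, hy, ?_⟩, fun h => hx2 h⟩
      rw [hvi j hj0]
    have h6 := (Finset.card_le_card h5).trans Finset.card_biUnion_le
    have h7 : ((F \ E0).card : ℝ) ≤ ∑ j ∈ Finset.univ.filter (fun j : Fin 4 => j ≠ 0),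
        ((hsdfin j).toFinset.card : ℝ) := by exact_mod_cast h6
    refine h7.trans ?_
    have h8 : ∀ j ∈ Finset.univ.filter (fun j : Fin 4 => j ≠ 0),
        ((hsdfin j).toFinset.card : ℝ) ≤ ε / 4 * E0.card := by
      intro j _
      rw [← Set.ncard_eq_toFinset_card _ (hsdfin j)]
      exact hsym j
    refine (Finset.sum_le_sum h8).trans (le_of_eq ?_)
    rw [Finset.sum_const]
    have : (Finset.univ.filter fun j : Fin 4 => j ≠ 0).card = 3 := by decide
    rw [this]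
    simp
    ring
  refine ⟨F, hne.mono hEF, hFinv, ?_⟩
  have h5 : F.filter (fun x => s 0 * x ∉ F) ⊆ (F \ E0) ∪ E0.filter fun x => s 0 * x ∉ E0 := by
    intro x hx
    obtain ⟨h6, h7⟩ := Finset.mem_filter.1 hx
    rw [Finset.mem_union, Finset.mem_sdiff, Finset.mem_filter]
    by_cases h8 : x ∈ E0
    · right
      exact ⟨h8, fun h => h7 (hEF h)⟩
    · left
      exact ⟨h6, h8⟩
  have h6 : ((E0.filter fun x => s 0 * x ∉ E0).card : ℝ) ≤ ε / 4 * E0.card := by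
    refine le_trans ?_ (hsym 0)
    have h7 : (E0.filter fun x => s 0 * x ∉ E0).card ≤
        (symmDiff ((fun x => s 0 * x) '' (E0 : Set M)) (E0 : Set M)).ncard := by
      rw [← Finset.card_image_of_injective _ (mul_right_injective (s 0)),
        ← Set.ncard_coe_finset]
      refine Set.ncard_le_ncard ?_ (hsdfin 0)
      intro x hx
      rw [Finset.mem_coe, Finset.mem_image] at hx
      obtain ⟨y, hy, rfl⟩ := hx
      obtain ⟨h8, h9⟩ := Finset.mem_filter.1 hy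
      rw [Set.mem_symmDiff]
      left
      exact ⟨⟨y, h8, rfl⟩, h9⟩
    exact_mod_cast h7
  have h7 := (Finset.card_le_card h5).trans (Finset.card_union_le _ _)
  have h8 : ((F.filter fun x => s 0 * x ∉ F).card : ℝ) ≤
      ((F \ E0).card : ℝ) + ((E0.filter fun x => s 0 * x ∉ E0).card : ℝ) := by exact_mod_cast h7
  have h9 : (E0.card : ℝ) ≤ F.card := by exact_mod_cast Finset.card_le_card hEF
  have h10 : ε * (E0.card : ℝ) ≤ ε * F.card := mul_le_mul_of_nonneg_left h9 hε.le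
  linarith

/-- The unit function of an invariant set in a group. -/
theorem set_fun {M : Type} [Group M] [DecidableEq M] (s : Fin 4 → M)
    (hsq : ∀ i, s i * s i = 1) (F : Finset M) (hne : F.Nonempty)
    (hFinv : ∀ i, i ≠ 0 → ∀ x ∈ F, s i * x ∈ F) :
    ∃ q : M → ℝ, (∀ x, 0 ≤ q x) ∧ (∀ x, x ∉ F → q x = 0) ∧ (∑ x ∈ F, q x ^ 2 = 1) ∧
      (∀ i : Fin 4, i ≠ 0 → ∀ x, q (s i * x) = q x) ∧
      (∑ x ∈ F, q x * q (s 0 * x) = 1 - ((F.filter fun x => s 0 * x ∉ F).card : ℝ) / F.card) := by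
  have hFpos : (0 : ℝ) < F.card := by exact_mod_cast Finset.card_pos.2 hne
  set q : M → ℝ := fun x => if x ∈ F then 1 / Real.sqrt F.card else 0 with hq
  refine ⟨q, ?_, ?_, ?_, ?_, ?_⟩
  · intro x
    simp only [hq]
    split_ifs
    · positivity
    · exact le_rfl
  · intro x hx
    simp only [hq, if_neg hx]
  · have : ∀ x ∈ F, q x ^ 2 = 1 / (F.card : ℝ) := by
      intro x hx
      simp only [hq]
      rw [if_pos hx, div_pow, one_pow, Real.sq_sqrt hFpos.le]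
    rw [Finset.sum_congr rfl this, Finset.sum_const, nsmul_eq_mul]
    field_simp
  · intro i hi x
    have h5 : s i * x ∈ F ↔ x ∈ F := by
      refine ⟨fun h => ?_, fun h => hFinv i hi x h⟩
      have h6 := hFinv i hi _ h
      rwa [← mul_assoc, hsq, one_mul] at h6
    simp only [hq, h5]
  · have h4 : ∀ x ∈ F, q x * q (s 0 * x) =
        (if s 0 * x ∈ F then (1 : ℝ) else 0) * (1 / F.card) := by
      intro x hx
      simp only [hq]
      rw [if_pos hx]
      split_ifs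
      · rw [one_mul, div_mul_div_comm, one_mul, Real.mul_self_sqrt hFpos.le]
      · ring
    rw [Finset.sum_congr rfl h4, ← Finset.sum_mul, Finset.sum_boole]
    have h5 : ((F.filter fun x => s 0 * x ∈ F).card : ℝ) +
        ((F.filter fun x => s 0 * x ∉ F).card : ℝ) = F.card := by
      exact_mod_cast Finset.card_filter_add_card_filter_not (s := F) (fun x => s 0 * x ∈ F)
    field_simp
    linarith

theorem quot_sq (Λ : Set (ℕ → Fin 3)) (i : Fin 4) :
    (QuotientGroup.mk (FreeGroup.of i) : F4 ⧸ NL Λ) * QuotientGroup.mk (FreeGroup.of i) = 1 :=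
  (QuotientGroup.eq_one_iff (FreeGroup.of i * FreeGroup.of i)).2 (of_sq_mem Λ i)

theorem quot_mul (Λ : Set (ℕ → Fin 3)) (i j k : Fin 4) (hi : i ≠ 0) (hj : j ≠ 0) (hk : k ≠ 0)
    (h : ∀ y, act k y = (act i y != act j y)) :
    (QuotientGroup.mk (FreeGroup.of i) : F4 ⧸ NL Λ) * QuotientGroup.mk (FreeGroup.of j) =
      QuotientGroup.mk (FreeGroup.of k) := by
  have h2 : (QuotientGroup.mk (FreeGroup.of i * FreeGroup.of j * (FreeGroup.of k)⁻¹) :
      F4 ⧸ NL Λ) = 1 := (QuotientGroup.eq_one_iff _).2 (of_mul_mem Λ i j k hi hj hk h)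
  exact mul_inv_eq_one.1 h2

/-- The action by left multiplication. -/
def leftHom (Λ : Set (ℕ → Fin 3)) : F4 →* Perm (F4 ⧸ NL Λ) :=
  (MulAction.toPermHom (F4 ⧸ NL Λ) (F4 ⧸ NL Λ)).comp (QuotientGroup.mk' (NL Λ))

theorem leftHom_apply (Λ : Set (ℕ → Fin 3)) (g : F4) (x : F4 ⧸ NL Λ) :
    leftHom Λ g x = (QuotientGroup.mk g : F4 ⧸ NL Λ) * x := rfl

theorem good_of_fun (Λ : Set (ℕ → Fin 3)) (F : Finset (F4 ⧸ NL Λ)) (t : ℝ)
    (q : (F4 ⧸ NL Λ) → ℝ) (h0 : ∀ x, 0 ≤ q x) (hF : ∀ x, x ∉ F → q x = 0)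
    (h1 : ∑ x ∈ F, q x ^ 2 = 1)
    (hV : ∀ i : Fin 4, i ≠ 0 → ∀ x, q ((QuotientGroup.mk (FreeGroup.of i) : F4 ⧸ NL Λ) * x) = q x)
    (ht : ∑ x ∈ F, q x * q ((QuotientGroup.mk (FreeGroup.of 0) : F4 ⧸ NL Λ) * x) = t) :
    Good (NL Λ) t := by
  refine ⟨F4 ⧸ NL Λ, leftHom Λ, q, F, ?_, ?_, h0, hF, h1, ?_, ?_⟩
  · intro g hg
    ext1 x
    rw [leftHom_apply, (QuotientGroup.eq_one_iff g).2 hg, one_mul]
    rfl
  · intro x x'
    refine Set.Subsingleton.finite ?_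
    rintro _ ⟨g, hg, rfl⟩ _ ⟨g', hg', rfl⟩
    have h2 : (QuotientGroup.mk g : F4 ⧸ NL Λ) * x = x' := hg
    have h3 : (QuotientGroup.mk g' : F4 ⧸ NL Λ) * x = x' := hg'
    exact mul_right_cancel (h2.trans h3.symm)
  · intro i hi x
    rw [leftHom_apply]
    exact hV i hi x
  · rw [← ht]
    rfl

/-- If there is a Følner sequence then `tau` is one. -/
theorem tau_of_hasFolner (Λ : Set (ℕ → Fin 3)) (h : HasFolner (F4 ⧸ NL Λ)) : tau Λ = 1 := by
  classical
  obtain ⟨E, hne, hlim⟩ := h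
  refine le_antisymm (tau_le_one Λ) ?_
  refine le_of_forall_pos_le_add fun ε hε => ?_
  have h1 : ∀ i : Fin 4, ∀ᶠ n in Filter.atTop,
      (Set.ncard (symmDiff ((fun x => (QuotientGroup.mk (FreeGroup.of i) : F4 ⧸ NL Λ) * x) ''
      (E n : Set (F4 ⧸ NL Λ))) (E n : Set (F4 ⧸ NL Λ))) : ℝ) / (E n).card < ε / 4 := fun i =>
    (hlim _).eventually (gt_mem_nhds (by positivity))
  obtain ⟨n, hn⟩ := (Filter.eventually_all.2 h1).exists
  have hpos : (0 : ℝ) < (E n).card := by exact_mod_cast Finset.card_pos.2 (hne n)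
  obtain ⟨F, hFne, hFinv, hFb⟩ := exists_inv_set
    (fun i => (QuotientGroup.mk (FreeGroup.of i) : F4 ⧸ NL Λ)) (quot_sq Λ) (quot_mul Λ) (E n)
    (hne n) ε hε (fun i => by
      have := hn i
      rw [div_lt_iff₀ hpos] at this
      exact this.le)
  obtain ⟨q, hq0, hqF, hq1, hqV, hqt⟩ := set_fun
    (fun i => (QuotientGroup.mk (FreeGroup.of i) : F4 ⧸ NL Λ)) (quot_sq Λ) F hFne hFinv
  have h2 := (good_of_fun Λ F _ q hq0 hqF hq1 hqV hqt).le_tau
  have hFpos : (0 : ℝ) < F.card := by exact_mod_cast Finset.card_pos.2 hFne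
  have h3 := (div_le_iff₀ hFpos).2 hFb
  linarith

theorem hasFolner_iff (Λ : Set (ℕ → Fin 3)) : HasFolner (F4 ⧸ NL Λ) ↔ ¬ Bad Λ := by
  rw [Bad, not_lt]
  constructor
  · intro h
    rw [tau_of_hasFolner Λ h]
  · intro h
    exact hasFolner_of_tau Λ (le_antisymm (tau_le_one Λ) h)

end Pool.Agent.helper7.UG
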