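import Pool.Agent.helper7.UG.Count

set_option autoImplicit false

/-!
# Almost invariant functions and Følner sequences
-/

namespace Pool.Agent.helper7.UG

open Equiv

/-- A group is amenable if it has a Følner sequence: nonempty finite sets `E n` such that
`|g (E n) △ E n| / |E n|` tends to zero for every `g`. -/
def HasFolner (M : Type) [Group M] : Prop :=
  ∃ E : ℕ → Finset M, (∀ n, (E n).Nonempty) ∧ ∀ g : M,
    Filter.Tendsto (fun n => (Set.ncard (symmDiff ((fun x => g * x) '' (E n : Set M))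
      (E n : Set M)) : ℝ) / (E n).card) Filter.atTop (nhds 0)

/-- The indicator of a level set. -/
noncomputable def ind (s u : ℝ) : ℝ := if s < u then 1 else 0

theorem level {X : Type} (R : X → X) (B : Finset X) (κ : ℝ) (n : ℕ) :
    ∀ f : X → ℝ, (∀ x, 0 ≤ f x) → (∀ x, x ∉ B → f x = 0) →
      {x | x ∈ B ∧ 0 < f x}.ncard ≤ n →
      ∑ x ∈ B, |f x - f (R x)| < κ * ∑ x ∈ B, f x →
      ∃ s : ℝ, 0 ≤ s ∧ ∑ x ∈ B, |ind s (f x) - ind s (f (R x))| < κ * ∑ x ∈ B, ind s (f x) := by
  classical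
  induction n with
  | zero =>
    intro f h0 hB hn hlt
    exfalso
    have hfin : {x | x ∈ B ∧ 0 < f x}.Finite := B.finite_toSet.subset fun x hx => hx.1
    have h1 : {x | x ∈ B ∧ 0 < f x} = ∅ := (Set.ncard_eq_zero hfin).1 (Nat.le_zero.1 hn)
    have h2 : ∀ x, f x = 0 := by
      intro x
      by_contra h3
      have h4 : 0 < f x := lt_of_le_of_ne (h0 x) (Ne.symm h3)
      have h5 : x ∈ B := by
        by_contra h6
        exact h3 (hB x h6)
      have h7 : x ∈ {x | x ∈ B ∧ 0 < f x} := ⟨h5, h4⟩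
      rw [h1] at h7
      exact h7
    simp [h2] at hlt
  | succ n ih =>
    intro f h0 hB hn hlt
    set E : Finset X := B.filter fun x => 0 < f x with hE
    by_cases hEn : E.Nonempty
    swap
    · exfalso
      have h2 : ∀ x, f x = 0 := by
        intro x
        by_contra h3
        have h4 : 0 < f x := lt_of_le_of_ne (h0 x) (Ne.symm h3)
        have h5 : x ∈ B := by
          by_contra h6
          exact h3 (hB x h6)
        exact hEn ⟨x, Finset.mem_filter.2 ⟨h5, h4⟩⟩
      simp [h2] at hlt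
    obtain ⟨x0, hx0, hmin⟩ := Finset.exists_min_image E f hEn
    set c : ℝ := f x0 with hc
    have hc0 : 0 < c := (Finset.mem_filter.1 hx0).2
    have hcle : ∀ x, 0 < f x → c ≤ f x := by
      intro x hx
      refine hmin x (Finset.mem_filter.2 ⟨?_, hx⟩)
      by_contra h6
      exact absurd (hB x h6) hx.ne'
    by_cases hdone : ∑ x ∈ B, |ind 0 (f x) - ind 0 (f (R x))| < κ * ∑ x ∈ B, ind 0 (f x)
    · exact ⟨0, le_rfl, hdone⟩
    rw [not_lt] at hdone
    set f' : X → ℝ := fun x => if 0 < f x then f x - c else 0 with hf'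
    have hpos : ∀ x, 0 < f x → f' x = f x - c := fun x hx => by simp only [hf', if_pos hx]
    have hneg : ∀ x, ¬ 0 < f x → f' x = 0 := fun x hx => by simp only [hf', if_neg hx]
    have hz : ∀ x, ¬ 0 < f x → f x = 0 := fun x hx => le_antisymm (not_lt.1 hx) (h0 x)
    have h0' : ∀ x, 0 ≤ f' x := by
      intro x
      by_cases hx : 0 < f x
      · rw [hpos x hx]
        linarith [hcle x hx]
      · rw [hneg x hx]
    have hB' : ∀ x, x ∉ B → f' x = 0 := by
      intro x hx
      apply hneg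
      rw [hB x hx]
      exact lt_irrefl _
    have e1 : ∀ x, |f x - f (R x)| = c * |ind 0 (f x) - ind 0 (f (R x))| + |f' x - f' (R x)| := by
      intro x
      by_cases h1 : 0 < f x <;> by_cases h2 : 0 < f (R x)
      · rw [hpos _ h1, hpos _ h2]
        simp [ind, h1, h2]
      · rw [hpos _ h1, hneg _ h2, hz _ h2]
        have := hcle _ h1
        simp only [ind, h1, if_true, lt_irrefl, if_false, sub_zero]
        rw [abs_of_pos h1, abs_of_nonneg (by linarith : 0 ≤ f x - c)]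
        simp
      · rw [hneg _ h1, hpos _ h2, hz _ h1]
        have := hcle _ h2
        simp only [ind, h2, if_true, lt_irrefl, if_false, zero_sub]
        rw [abs_neg, abs_of_pos h2, abs_neg, abs_neg, abs_of_nonneg (by linarith : 0 ≤ f (R x) - c)]
        simp
      · rw [hneg _ h1, hneg _ h2, hz _ h1, hz _ h2]
        simp
    have e2 : ∀ x, f x = c * ind 0 (f x) + f' x := by
      intro x
      by_cases h1 : 0 < f x
      · rw [hpos _ h1]
        simp [ind, h1]
      · rw [hneg _ h1, hz _ h1]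
        simp [ind]
    have e3 : ∑ x ∈ B, |f x - f (R x)| = c * ∑ x ∈ B, |ind 0 (f x) - ind 0 (f (R x))| +
        ∑ x ∈ B, |f' x - f' (R x)| := by
      rw [Finset.mul_sum, ← Finset.sum_add_distrib]
      exact Finset.sum_congr rfl fun x _ => e1 x
    have e4 : ∑ x ∈ B, f x = c * ∑ x ∈ B, ind 0 (f x) + ∑ x ∈ B, f' x := by
      rw [Finset.mul_sum, ← Finset.sum_add_distrib]
      exact Finset.sum_congr rfl fun x _ => e2 x
    have hlt' : ∑ x ∈ B, |f' x - f' (R x)| < κ * ∑ x ∈ B, f' x := by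
      rw [e3, e4] at hlt
      have := mul_le_mul_of_nonneg_left hdone hc0.le
      nlinarith
    have hcard : {x | x ∈ B ∧ 0 < f' x}.ncard ≤ n := by
      have h1 : {x | x ∈ B ∧ 0 < f' x}.ncard < {x | x ∈ B ∧ 0 < f x}.ncard := by
        refine Set.ncard_lt_ncard ?_ (B.finite_toSet.subset fun x hx => hx.1)
        refine Set.ssubset_iff_of_subset ?_ |>.2 ?_
        · rintro x ⟨hx, hx'⟩
          refine ⟨hx, ?_⟩
          by_contra h2
          rw [hneg x h2] at hx'
          exact lt_irrefl _ hx'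
        · refine ⟨x0, ⟨(Finset.mem_filter.1 hx0).1, hc0⟩, ?_⟩
          rintro ⟨_, h2⟩
          rw [hpos x0 hc0, hc, sub_self] at h2
          exact lt_irrefl _ h2
      omega
    obtain ⟨s, hs, hfin⟩ := ih f' h0' hB' hcard hlt'
    refine ⟨s + c, by linarith, ?_⟩
    have e5 : ∀ x, ind (s + c) (f x) = ind s (f' x) := by
      intro x
      by_cases h1 : 0 < f x
      · rw [hpos _ h1]
        simp only [ind]
        by_cases h2 : s + c < f x
        · rw [if_pos h2, if_pos (by linarith)]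
        · rw [if_neg h2, if_neg (by linarith)]
      · rw [hneg _ h1, hz _ h1]
        simp only [ind]
        rw [if_neg (by linarith), if_neg (by linarith)]
    simp only [e5]
    exact hfin

/-- From functions to sets. -/
theorem exists_set {X : Type} (R : Perm X) (hR : ∀ x, R (R x) = x) (q : X → ℝ) (A : Finset X)
    (t κ : ℝ) (hκ : 0 < κ) (_h0 : ∀ x, 0 ≤ q x) (hA : ∀ x, x ∉ A → q x = 0)
    (h1 : ∑ x ∈ A, q x ^ 2 = 1) (ht : ∑ x ∈ A, q x * q (R x) = t) (ht1 : 8 * (1 - t) < κ ^ 2) :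
    ∃ s : ℝ, 0 ≤ s ∧ ∃ E : Finset X, (∀ x, x ∈ E ↔ s < q x ^ 2) ∧
      ({x | x ∈ E ∧ R x ∉ E}.ncard : ℝ) < κ * E.card := by
  classical
  set B : Finset X := A ∪ A.image R with hB
  have hAB : A ⊆ B := Finset.subset_union_left
  have hqB : ∀ x, x ∉ B → q x = 0 := fun x hx => hA x fun h => hx (hAB h)
  have hRB : ∀ x, R x ∈ B ↔ x ∈ B := by
    have h2 : ∀ x, x ∈ B → R x ∈ B := by
      intro x hx
      rw [hB, Finset.mem_union] at hx ⊢
      rcases hx with hx | hx
      · exact Or.inr (Finset.mem_image_of_mem _ hx)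
      · obtain ⟨y, hy, rfl⟩ := Finset.mem_image.1 hx
        rw [hR]
        exact Or.inl hy
    intro x
    refine ⟨fun h => ?_, h2 x⟩
    have := h2 _ h
    rwa [hR] at this
  have e1 : ∑ x ∈ B, q x ^ 2 = 1 := by
    rw [← h1]
    symm
    refine Finset.sum_subset hAB fun x _ hx => ?_
    rw [hA x hx]
    ring
  have e2 : ∑ x ∈ B, q (R x) ^ 2 = 1 := by
    rw [← e1]
    refine Finset.sum_bij' (fun x _ => R x) (fun x _ => R x) ?_ ?_ ?_ ?_ ?_
    · intro x hx; exact (hRB x).2 hx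
    · intro x hx; exact (hRB x).2 hx
    · intro x _; exact hR x
    · intro x _; exact hR x
    · intro x _; rfl
  have e3 : ∑ x ∈ B, q x * q (R x) = t := by
    rw [← ht]
    symm
    refine Finset.sum_subset hAB fun x _ hx => ?_
    rw [hA x hx]
    ring
  have htt : t ≤ 1 := by
    have : 0 ≤ ∑ x ∈ B, (q x - q (R x)) ^ 2 := Finset.sum_nonneg fun x _ => sq_nonneg _
    have h2 : ∑ x ∈ B, (q x - q (R x)) ^ 2 = 2 - 2 * t := by
      have : ∀ x, (q x - q (R x)) ^ 2 = q x ^ 2 + q (R x) ^ 2 - 2 * (q x * q (R x)) :=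
        fun x => by ring
      simp only [this]
      rw [Finset.sum_sub_distrib, Finset.sum_add_distrib, ← Finset.mul_sum, e1, e2, e3]
      ring
    linarith
  have e4 : (∑ x ∈ B, |q x ^ 2 - q (R x) ^ 2|) ^ 2 ≤ 8 * (1 - t) := by
    have h2 : ∀ x, |q x ^ 2 - q (R x) ^ 2| = |q x - q (R x)| * |q x + q (R x)| := by
      intro x
      rw [← abs_mul]
      congr 1
      ring
    simp only [h2]
    refine (Finset.sum_mul_sq_le_sq_mul_sq B _ _).trans ?_
    have h3 : ∑ x ∈ B, |q x - q (R x)| ^ 2 = 2 - 2 * t := by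
      have : ∀ x, |q x - q (R x)| ^ 2 = q x ^ 2 + q (R x) ^ 2 - 2 * (q x * q (R x)) :=
        fun x => by rw [sq_abs]; ring
      simp only [this]
      rw [Finset.sum_sub_distrib, Finset.sum_add_distrib, ← Finset.mul_sum, e1, e2, e3]
      ring
    have h4 : ∑ x ∈ B, |q x + q (R x)| ^ 2 = 2 + 2 * t := by
      have : ∀ x, |q x + q (R x)| ^ 2 = q x ^ 2 + q (R x) ^ 2 + 2 * (q x * q (R x)) :=
        fun x => by rw [sq_abs]; ring
      simp only [this]
      rw [Finset.sum_add_distrib, Finset.sum_add_distrib, ← Finset.mul_sum, e1, e2, e3]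
      ring
    rw [h3, h4]
    nlinarith
  have e5 : ∑ x ∈ B, |q x ^ 2 - q (R x) ^ 2| < κ * ∑ x ∈ B, q x ^ 2 := by
    rw [e1, mul_one]
    have : (∑ x ∈ B, |q x ^ 2 - q (R x) ^ 2|) ^ 2 < κ ^ 2 := e4.trans_lt ht1
    exact lt_of_pow_lt_pow_left₀ 2 hκ.le this
  obtain ⟨s, hs, h2⟩ := level R B κ _ (fun x => q x ^ 2) (fun x => sq_nonneg _)
    (fun x hx => by rw [hqB x hx]; ring) le_rfl e5
  refine ⟨s, hs, B.filter fun x => s < q x ^ 2, ?_, ?_⟩
  · intro x
    rw [Finset.mem_filter]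
    refine ⟨fun h => h.2, fun h => ⟨?_, h⟩⟩
    by_contra h3
    rw [hqB x h3] at h
    norm_num at h
    linarith
  · set E : Finset X := B.filter fun x => s < q x ^ 2 with hE
    have hmem : ∀ x, x ∈ E ↔ s < q x ^ 2 := by
      intro x
      rw [hE, Finset.mem_filter]
      refine ⟨fun h => h.2, fun h => ⟨?_, h⟩⟩
      by_contra h3
      rw [hqB x h3] at h
      norm_num at h
      linarith
    have h3 : ∑ x ∈ B, ind s (q x ^ 2) = E.card := by
      unfold ind
      rw [Finset.sum_boole]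
    rw [h3] at h2
    refine lt_of_le_of_lt ?_ h2
    have h4 : {x | x ∈ E ∧ R x ∉ E} = ((E.filter fun x => R x ∉ E : Finset X) : Set X) := by
      ext x
      simp
    rw [h4, Set.ncard_coe_finset]
    have h5 : ((E.filter fun x => R x ∉ E).card : ℝ) =
        ∑ x ∈ E.filter (fun x => R x ∉ E), (1 : ℝ) := by simp
    rw [h5]
    have h8 : E.filter (fun x => R x ∉ E) ⊆ B :=
      (Finset.filter_subset _ _).trans (Finset.filter_subset _ _)
    calc ∑ x ∈ E.filter (fun x => R x ∉ E), (1 : ℝ)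
        ≤ ∑ x ∈ E.filter (fun x => R x ∉ E), |ind s (q x ^ 2) - ind s (q (R x) ^ 2)| := by
          refine Finset.sum_le_sum fun x hx => ?_
          obtain ⟨h6, h7⟩ := Finset.mem_filter.1 hx
          rw [hmem] at h6 h7
          simp [ind, h6, h7]
      _ ≤ ∑ x ∈ B, |ind s (q x ^ 2) - ind s (q (R x) ^ 2)| :=
          Finset.sum_le_sum_of_subset_of_nonneg h8 fun x _ _ => abs_nonneg _

/-- Restricting a set with small boundary to one orbit. -/
theorem exists_orbit {M X : Type} [Group M] (ρ : M →* Perm X) (a : M) (E : Finset X) (κ : ℝ)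
    (h : ({x | x ∈ E ∧ ρ a x ∉ E}.ncard : ℝ) < κ * E.card) :
    ∃ x0 ∈ E, ∃ F : Finset X, (∀ x, x ∈ F ↔ x ∈ E ∧ ∃ g, ρ g x0 = x) ∧
      ({x | x ∈ F ∧ ρ a x ∉ F}.ncard : ℝ) < κ * F.card := by
  classical
  let r : Setoid X := ⟨fun x y => ∃ g, ρ g x = y, fun x => ⟨1, by simp⟩,
    fun {x y} ⟨g, hg⟩ => ⟨g⁻¹, by rw [← hg, ← Perm.mul_apply, ← map_mul, inv_mul_cancel]; simp⟩,
    fun {x y z} ⟨g, hg⟩ ⟨k, hk⟩ => ⟨k * g, by rw [map_mul, Perm.mul_apply, hg, hk]⟩⟩
  let π : X → Quotient r := Quotient.mk r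
  have hπ : ∀ x y, π x = π y ↔ ∃ g, ρ g x = y := fun x y => Quotient.eq
  set D : Finset X := E.filter fun x => ρ a x ∉ E with hD
  have hDc : {x | x ∈ E ∧ ρ a x ∉ E} = (D : Set X) := by
    ext x
    simp [hD]
  rw [hDc, Set.ncard_coe_finset] at h
  set J : Finset (Quotient r) := E.image π with hJ
  have h1 : E.card = ∑ j ∈ J, (E.filter fun x => π x = j).card :=
    Finset.card_eq_sum_card_image π E
  have h2 : D.card = ∑ j ∈ J, (D.filter fun x => π x = j).card := by
    refine Finset.card_eq_sum_card_fiberwise fun x hx => ?_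
    exact Finset.mem_coe.2 (Finset.mem_image_of_mem _ (Finset.filter_subset _ _ hx))
  rw [h1, h2] at h
  push_cast at h
  rw [Finset.mul_sum] at h
  obtain ⟨j, hj, hlt⟩ := Finset.exists_lt_of_sum_lt h
  obtain ⟨x0, hx0, rfl⟩ := Finset.mem_image.1 hj
  refine ⟨x0, hx0, E.filter fun x => π x = π x0, ?_, ?_⟩
  · intro x
    rw [Finset.mem_filter, eq_comm, hπ]
  · refine lt_of_le_of_lt ?_ hlt
    have h3 : {x | x ∈ E.filter (fun x => π x = π x0) ∧ ρ a x ∉ E.filter (fun x => π x = π x0)} ⊆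
        ((D.filter fun x => π x = π x0 : Finset X) : Set X) := by
      rintro x ⟨hx, hx'⟩
      rw [Finset.mem_filter] at hx
      rw [Finset.mem_filter, not_and_or] at hx'
      have h4 : π (ρ a x) = π x0 := by
        rw [← hx.2]
        exact ((hπ _ _).2 ⟨a, rfl⟩).symm
      have h5 : ρ a x ∉ E := hx'.resolve_right fun h => h h4
      rw [Finset.mem_coe, Finset.mem_filter, hD, Finset.mem_filter]
      exact ⟨⟨hx.1, h5⟩, hx.2⟩
    have h4 := Set.ncard_le_ncard h3 (Finset.finite_toSet _)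
    rw [Set.ncard_coe_finset] at h4
    exact_mod_cast h4

/-- Pulling back a finite subset of an orbit to the group. -/
theorem pull_back {M X : Type} [Group M] (ρ : M →* Perm X)
    (hfin : ∀ x x', {g : M | ρ g x = x'}.Finite) (x0 : X) :
    ∃ k : ℕ, 0 < k ∧ ∀ F : Finset X, (∀ x ∈ F, ∃ g, ρ g x0 = x) →
      ∃ F' : Finset M, (∀ g, g ∈ F' ↔ ρ g x0 ∈ F) ∧ F'.card = k * F.card := by
  classical
  set T : X → Finset M := fun x => (hfin x0 x).toFinset with hT
  have hTm : ∀ x g, g ∈ T x ↔ ρ g x0 = x := by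
    intro x g
    simp [hT]
  refine ⟨(T x0).card, Finset.card_pos.2 ⟨1, (hTm _ _).2 (by simp)⟩, fun F hF => ?_⟩
  have hcard : ∀ x ∈ F, (T x).card = (T x0).card := by
    intro x hx
    obtain ⟨k, hk⟩ := hF x hx
    refine Finset.card_bij' (fun g _ => k⁻¹ * g) (fun g _ => k * g) ?_ ?_ ?_ ?_
    · intro g hg
      rw [hTm] at hg ⊢
      rw [map_mul, Perm.mul_apply, hg, ← hk, ← Perm.mul_apply, ← map_mul, inv_mul_cancel]
      simp
    · intro g hg
      rw [hTm] at hg ⊢
      rw [map_mul, Perm.mul_apply, hg, hk]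
    · intro g _
      simp
    · intro g _
      simp
  refine ⟨F.biUnion T, ?_, ?_⟩
  · intro g
    rw [Finset.mem_biUnion]
    constructor
    · rintro ⟨x, hx, hg⟩
      rw [hTm] at hg
      rwa [hg]
    · intro hg
      exact ⟨_, hg, (hTm _ _).2 rfl⟩
  · rw [Finset.card_biUnion]
    · rw [Finset.sum_congr rfl hcard, Finset.sum_const, smul_eq_mul, mul_comm]
    · intro x _ y _ hxy
      rw [Function.onFun, Finset.disjoint_left]
      intro g hg hg'
      rw [hTm] at hg hg'
      exact hxy (hg.symm.trans hg')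

/-- The size of the boundary of `E` in the direction `g`. -/
noncomputable def bd {M : Type} [Group M] (E : Finset M) (g : M) : ℕ :=
  {y | y ∈ E ∧ g * y ∉ E}.ncard

theorem bd_fin {M : Type} [Group M] (E : Finset M) (g : M) : {y | y ∈ E ∧ g * y ∉ E}.Finite :=
  E.finite_toSet.subset fun _ hy => hy.1

theorem bd_one {M : Type} [Group M] (E : Finset M) : bd E 1 = 0 := by
  have : {y | y ∈ E ∧ (1 : M) * y ∉ E} = ∅ := by
    ext y
    simp
  rw [bd, this, Set.ncard_empty]

theorem bd_mul {M : Type} [Group M] (E : Finset M) (g h : M) : bd E (g * h) ≤ bd E g + bd E h := by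
  have h1 : {y | y ∈ E ∧ g * h * y ∉ E} ⊆
      (fun y => h⁻¹ * y) '' {y | y ∈ E ∧ g * y ∉ E} ∪ {y | y ∈ E ∧ h * y ∉ E} := by
    rintro y ⟨hy, hy'⟩
    by_cases h2 : h * y ∈ E
    · left
      refine ⟨h * y, ⟨h2, ?_⟩, ?_⟩
      · rwa [← mul_assoc]
      · simp
    · right
      exact ⟨hy, h2⟩
  refine (Set.ncard_le_ncard h1 (((bd_fin E g).image _).union (bd_fin E h))).trans ?_
  refine (Set.ncard_union_le _ _).trans ?_
  refine Nat.add_le_add (Set.ncard_image_le (bd_fin E g)) le_rfl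

theorem bd_add {M : Type} [Group M] (E : Finset M) (g : M) :
    bd E g + {y | y ∈ E ∧ g * y ∈ E}.ncard = E.card := by
  rw [bd, ← Set.ncard_union_eq, ← Set.ncard_coe_finset]
  · congr 1
    ext y
    simp only [Set.mem_union, Set.mem_ofPred_eq, Finset.mem_coe]
    tauto
  · rw [Set.disjoint_left]
    rintro y ⟨_, h1⟩ ⟨_, h2⟩
    exact h1 h2

theorem bd_inv {M : Type} [Group M] (E : Finset M) (g : M) : bd E g⁻¹ = bd E g := by
  have h1 := bd_add E g
  have h2 := bd_add E g⁻¹
  have h3 : {y | y ∈ E ∧ g⁻¹ * y ∈ E} = (fun y => g * y) '' {y | y ∈ E ∧ g * y ∈ E} := by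
    ext y
    simp only [Set.mem_image, Set.mem_ofPred_eq]
    constructor
    · rintro ⟨hy, hy'⟩
      exact ⟨g⁻¹ * y, ⟨hy', by simpa using hy⟩, by simp⟩
    · rintro ⟨z, ⟨hz, hz'⟩, rfl⟩
      exact ⟨hz', by simpa using hz⟩
  have h4 : {y | y ∈ E ∧ g⁻¹ * y ∈ E}.ncard = {y | y ∈ E ∧ g * y ∈ E}.ncard := by
    rw [h3, Set.ncard_image_of_injective _ (mul_right_injective g)]
  omega

theorem symm_le {M : Type} [Group M] (E : Finset M) (g : M) :
    (symmDiff ((fun x => g * x) '' (E : Set M)) (E : Set M)).ncard ≤ 2 * bd E g := by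
  have h1 : symmDiff ((fun x => g * x) '' (E : Set M)) (E : Set M) ⊆
      (fun y => g * y) '' {y | y ∈ E ∧ g * y ∉ E} ∪ {y | y ∈ E ∧ g⁻¹ * y ∉ E} := by
    intro y hy
    rw [Set.mem_symmDiff] at hy
    rcases hy with ⟨⟨z, hz, rfl⟩, hy⟩ | ⟨hy, hy'⟩
    · left
      exact ⟨z, ⟨hz, hy⟩, rfl⟩
    · right
      refine ⟨hy, fun h => hy' ⟨g⁻¹ * y, h, by simp⟩⟩
  refine (Set.ncard_le_ncard h1 (((bd_fin E g).image _).union (bd_fin E g⁻¹))).trans ?_
  refine (Set.ncard_union_le _ _).trans ?_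
  have h2 := Set.ncard_image_le (f := fun y => g * y) (bd_fin E g)
  have h3 := bd_inv E g
  rw [bd, bd] at h3
  rw [bd, two_mul, h3]
  exact Nat.add_le_add h2 le_rfl

/-- The boundary in an arbitrary direction is controlled by the generators. -/
theorem bd_bound {M : Type} [Group M] (θ : F4 →* M) (g : F4) :
    ∃ C : ℕ, ∀ E : Finset M, bd E (θ g) ≤ C * ∑ i : Fin 4, bd E (θ (FreeGroup.of i)) := by
  induction g using FreeGroup.induction_on with
  | C1 => exact ⟨0, fun E => by rw [map_one, bd_one]; exact Nat.zero_le _⟩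
  | of i =>
    refine ⟨1, fun E => ?_⟩
    rw [one_mul]
    exact Finset.single_le_sum (f := fun i => bd E (θ (FreeGroup.of i)))
      (fun _ _ => Nat.zero_le _) (Finset.mem_univ i)
  | inv_of i h =>
    obtain ⟨C, hC⟩ := h
    refine ⟨C, fun E => ?_⟩
    rw [map_inv, bd_inv]
    exact hC E
  | mul x y hx hy =>
    obtain ⟨C, hC⟩ := hx
    obtain ⟨D, hD⟩ := hy
    refine ⟨C + D, fun E => ?_⟩
    rw [map_mul, add_mul]
    exact (bd_mul E _ _).trans (Nat.add_le_add (hC E) (hD E))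

end Pool.Agent.helper7.UG
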