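import Pool.Agent.helper7.UG.Tree

set_option autoImplicit false

/-!
# Almost invariant functions and the recursion
-/

namespace Pool.Agent.helper7.UG

open Equiv

/-- `Good N t`: there is a set with an action of the free group which is trivial on `N` and has
finite transporters modulo `N`, and a nonnegative finitely supported unit function on it which is
invariant under `b`, `c`, `d` and has inner product `t` with its translate by `a`. -/
def Good (N : Subgroup F4) (t : ℝ) : Prop :=
  ∃ (X : Type) (ρ : F4 →* Perm X) (q : X → ℝ) (A : Finset X),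
    (∀ g ∈ N, ρ g = 1) ∧
    (∀ x x', ((fun g : F4 => (QuotientGroup.mk g : F4 ⧸ N)) '' {g | ρ g x = x'}).Finite) ∧
    (∀ x, 0 ≤ q x) ∧ (∀ x, x ∉ A → q x = 0) ∧ (∑ x ∈ A, q x ^ 2 = 1) ∧
    (∀ i : Fin 4, i ≠ 0 → ∀ x, q (ρ (FreeGroup.of i) x) = q x) ∧
    (∑ x ∈ A, q x * q (ρ (FreeGroup.of 0) x) = t)

theorem Good.nonneg {N : Subgroup F4} {t : ℝ} (h : Good N t) : 0 ≤ t := by
  obtain ⟨X, ρ, q, A, _, _, h0, _, _, _, ht⟩ := h
  rw [← ht]
  exact Finset.sum_nonneg fun x _ => mul_nonneg (h0 _) (h0 _)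

/-- The averaged function and its properties. -/
theorem average {X : Type} (R : Perm X) (hR : ∀ x, R (R x) = x) (q : X → ℝ) (A : Finset X) (t : ℝ)
    (h0 : ∀ x, 0 ≤ q x) (hA : ∀ x, x ∉ A → q x = 0) (h1 : ∑ x ∈ A, q x ^ 2 = 1)
    (ht : ∑ x ∈ A, q x * q (R x) = t) :
    ∃ (u : X → ℝ) (B : Finset X), (∀ x, 0 ≤ u x) ∧ (∀ x, x ∉ B → u x = 0) ∧
      (∀ x, x ∉ B → q x = 0) ∧ (∑ x ∈ B, u x ^ 2 = 1) ∧ (∑ x ∈ B, q x ^ 2 = 1) ∧
      (∀ x, u (R x) = u x) ∧ (∑ x ∈ B, u x * q x = Real.sqrt ((1 + t) / 2)) := by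
  classical
  have ht0 : 0 ≤ t := by
    rw [← ht]
    exact Finset.sum_nonneg fun x _ => mul_nonneg (h0 _) (h0 _)
  set B : Finset X := A ∪ A.image R with hB
  set s : ℝ := Real.sqrt ((1 + t) / 2) with hs
  have hs2 : s ^ 2 = (1 + t) / 2 := Real.sq_sqrt (by linarith)
  have hs0 : 0 < s := Real.sqrt_pos.2 (by linarith)
  have hAB : A ⊆ B := Finset.subset_union_left
  have hqB : ∀ x, x ∉ B → q x = 0 := fun x hx => hA x fun h => hx (hAB h)
  have hRB : ∀ x, R x ∈ B ↔ x ∈ B := by
    have h2 : ∀ x, x ∈ B → R x ∈ B := by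
      intro x hx
      rw [hB, Finset.mem_union] at hx ⊢
      rcases hx with hx | hx
      · exact Or.inr (Finset.mem_image_of_mem _ hx)
      · obtain ⟨y, hy, rfl⟩ := Finset.mem_image.1 hx
        rw [hR]
        exact Or.inl hy
    intro x
    refine ⟨fun h => ?_, h2 x⟩
    have := h2 _ h
    rwa [hR] at this
  have e1 : ∑ x ∈ B, q x ^ 2 = 1 := by
    rw [← h1]
    symm
    refine Finset.sum_subset hAB fun x _ hx => ?_
    rw [hA x hx]
    ring
  have e2 : ∑ x ∈ B, q (R x) ^ 2 = 1 := by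
    rw [← e1]
    refine Finset.sum_bij' (fun x _ => R x) (fun x _ => R x) ?_ ?_ ?_ ?_ ?_
    · intro x hx; exact (hRB x).2 hx
    · intro x hx; exact (hRB x).2 hx
    · intro x _; exact hR x
    · intro x _; exact hR x
    · intro x _; rfl
  have e3 : ∑ x ∈ B, q x * q (R x) = t := by
    rw [← ht]
    symm
    refine Finset.sum_subset hAB fun x _ hx => ?_
    rw [hA x hx]
    ring
  refine ⟨fun x => (q x + q (R x)) / 2 / s, B, ?_, ?_, hqB, ?_, e1, ?_, ?_⟩
  · intro x
    have := h0 x
    have := h0 (R x)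
    positivity
  · intro x hx
    have h2 : R x ∉ B := fun h => hx ((hRB x).1 h)
    simp only
    rw [hqB x hx, hqB _ h2]
    simp
  · have : ∀ x, ((q x + q (R x)) / 2 / s) ^ 2 =
        (q x ^ 2 + q (R x) ^ 2 + 2 * (q x * q (R x))) * (1 / (4 * s ^ 2)) := by
      intro x
      field_simp
      ring
    simp only [this]
    rw [← Finset.sum_mul, Finset.sum_add_distrib, Finset.sum_add_distrib, ← Finset.mul_sum,
      e1, e2, e3, hs2]
    have : (1 + t) ≠ 0 := by linarith
    field_simp
    ring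
  · intro x
    simp only
    rw [hR, add_comm]
  · have : ∀ x, ((q x + q (R x)) / 2 / s) * q x =
        (q x ^ 2 + q x * q (R x)) * (1 / (2 * s)) := by
      intro x
      field_simp
    simp only [this]
    rw [← Finset.sum_mul, Finset.sum_add_distrib, e1, e3]
    have : (1 + t) = 2 * s ^ 2 := by rw [hs2]; ring
    rw [this]
    field_simp

theorem finite_of_comp {α β γ : Type} (S : Set α) (c : α → β) (m : α → γ)
    (hc : (c '' S).Finite) (h : ∀ g ∈ S, ∀ g' ∈ S, c g = c g' → m g = m g') :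
    (m '' S).Finite := by
  classical
  rcases isEmpty_or_nonempty α with hα | hα
  · rw [Set.eq_empty_of_isEmpty S, Set.image_empty]
    exact Set.finite_empty
  have h1 : ∀ b ∈ c '' S, ∃ g ∈ S, c g = b := fun b hb => hb
  choose! k hk using h1
  refine (hc.image fun b => m (k b)).subset ?_
  rintro _ ⟨g, hg, rfl⟩
  refine ⟨c g, ⟨g, hg, rfl⟩, ?_⟩
  have h2 := hk (c g) ⟨g, hg, rfl⟩
  exact h _ h2.1 _ hg h2.2

section Step

variable {X : Fin 3 → Type} (ρ : ∀ y, F4 →* Perm (X y))

/-- The action of the wreath product on the product space. -/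
@[instance_reducible]
def prodAction : MulAction Wr (∀ p : Bool × Fin 3, X p.2) where
  smul w f := fun p => ρ p.2 (w.left p.1 p.2) (f (w.right⁻¹ p.1, p.2))
  one_smul := by
    intro f
    funext p
    show ρ p.2 ((1 : Wr).left p.1 p.2) (f ((1 : Wr).right⁻¹ p.1, p.2)) = f p
    have h1 : (1 : Wr).left p.1 p.2 = 1 := rfl
    rw [h1, map_one]
    rfl
  mul_smul := by
    intro w v f
    funext p
    show ρ p.2 ((w * v).left p.1 p.2) (f ((w * v).right⁻¹ p.1, p.2)) =
      ρ p.2 (w.left p.1 p.2) (ρ p.2 (v.left (w.right⁻¹ p.1) p.2)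
        (f (v.right⁻¹ (w.right⁻¹ p.1), p.2)))
    rw [mul_left_apply, mul_right_apply, map_mul, Perm.mul_apply, mul_inv_rev, Perm.mul_apply]

/-- The resulting action of the free group. -/
def prodHom : F4 →* Perm (∀ p : Bool × Fin 3, X p.2) :=
  (@MulAction.toPermHom Wr _ _ (prodAction ρ)).comp Psi

theorem prodHom_apply (g : F4) (f : ∀ p : Bool × Fin 3, X p.2) (p : Bool × Fin 3) :
    prodHom ρ g f p = ρ p.2 ((Psi g).left p.1 p.2) (f ((Psi g).right⁻¹ p.1, p.2)) := rfl

end Step

theorem left_inv_mul (x y : Wr) (e : Bool) (z : Fin 3) :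
    (x⁻¹ * y).left e z = (x.left (x.right e) z)⁻¹ * y.left (x.right e) z := by
  rw [mul_left_apply]
  rfl

theorem good_step (Λ : Set (ℕ → Fin 3)) (hΛ : Λ.Nonempty) (t : Fin 3 → ℝ)
    (h : ∀ y, Good (NL (child Λ y)) (t y)) : Good (NL Λ) (∏ y, (1 + t y) / 2) := by
  classical
  have ht0 : ∀ y, 0 ≤ t y := fun y => (h y).nonneg
  choose X ρ q A hN hfin hq0 hqA hq1 hqV hqt using h
  have hR : ∀ y, ∀ x, ρ y (FreeGroup.of 0) (ρ y (FreeGroup.of 0) x) = x := by
    intro y x
    rw [← Perm.mul_apply, ← map_mul, hN y _ (of_sq_mem _ 0)]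
    rfl
  choose u B hu0 huB hqB hu1 hqB1 huR huq using fun y =>
    average (ρ y (FreeGroup.of 0)) (hR y) (q y) (A y) (t y) (hq0 y) (hqA y) (hq1 y) (hqt y)
  set hh : ∀ p : Bool × Fin 3, X p.2 → ℝ := fun p x => if p.1 then q p.2 x else u p.2 x with hhdef
  have hh0 : ∀ p x, 0 ≤ hh p x := by
    intro p x
    simp only [hhdef]
    split_ifs
    · exact hq0 _ _
    · exact hu0 _ _
  have hhB : ∀ (p : Bool × Fin 3) (x : X p.2), x ∉ B p.2 → hh p x = 0 := by
    intro p x hx
    simp only [hhdef]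
    split_ifs
    · exact hqB _ _ hx
    · exact huB _ _ hx
  refine ⟨∀ p : Bool × Fin 3, X p.2, prodHom ρ, fun f => ∏ p, hh p (f p),
    Fintype.piFinset fun p => B p.2, ?_, ?_, ?_, ?_, ?_, ?_, ?_⟩
  · -- trivial action of the kernel
    intro g hg
    obtain ⟨h1, h2⟩ := (mem_NL_iff Λ hΛ g).1 hg
    ext1 f
    funext p
    rw [prodHom_apply, h1, hN _ _ (h2 p.1 p.2)]
    rfl
  · -- finite transporters
    intro f f'
    let Q : Type := ∀ (_ : Bool) (y : Fin 3), F4 ⧸ NL (child Λ y)
    let c : F4 → Perm Bool × Q := fun g =>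
      ((Psi g).right, fun e y => QuotientGroup.mk ((Psi g).left e y))
    refine finite_of_comp _ c _ ?_ ?_
    · let I : Perm Bool → ∀ (_ : Bool) (y : Fin 3), Set (F4 ⧸ NL (child Λ y)) := fun r e y =>
        (fun g : F4 => (QuotientGroup.mk g : F4 ⧸ NL (child Λ y))) ''
          {g | ρ y g (f (r⁻¹ e, y)) = f' (e, y)}
      have hI : ∀ r e y, (I r e y).Finite := fun r e y => hfin y _ _
      have h1 : (⋃ r : Perm Bool, ({r} : Set (Perm Bool)) ×ˢ
          (Set.univ.pi fun e => Set.univ.pi fun y => I r e y : Set Q)).Finite := by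
        refine Set.finite_iUnion fun r => (Set.finite_singleton r).prod ?_
        exact Set.Finite.pi fun e => Set.Finite.pi fun y => hI r e y
      refine h1.subset ?_
      rintro _ ⟨g, hg, rfl⟩
      rw [Set.mem_iUnion]
      refine ⟨(Psi g).right, ?_⟩
      refine Set.mem_prod.2 ⟨rfl, ?_⟩
      intro e _ y _
      refine ⟨(Psi g).left e y, ?_, rfl⟩
      have h2 : prodHom ρ g f = f' := hg
      show ρ y ((Psi g).left e y) (f ((Psi g).right⁻¹ e, y)) = f' (e, y)
      rw [← h2]
      rfl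
    · intro g _ g' _ hc
      have h1 : (Psi g).right = (Psi g').right := congrArg Prod.fst hc
      have h2 := congrArg Prod.snd hc
      refine QuotientGroup.eq.2 ?_
      rw [mem_NL_iff Λ hΛ]
      constructor
      · rw [map_mul, map_inv]
        show (Psi g).right⁻¹ * (Psi g').right = 1
        rw [h1, inv_mul_cancel]
      · intro e y
        rw [map_mul, map_inv, left_inv_mul]
        have h3 := congrFun (congrFun h2 ((Psi g).right e)) y
        exact QuotientGroup.eq.1 h3
  · intro f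
    exact Finset.prod_nonneg fun p _ => hh0 _ _
  · intro f hf
    rw [Fintype.mem_piFinset, not_forall] at hf
    obtain ⟨p, hp⟩ := hf
    exact Finset.prod_eq_zero (Finset.mem_univ p) (hhB _ _ hp)
  · have h1 : ∀ f : (∀ p : Bool × Fin 3, X p.2),
        (∏ p, hh p (f p)) ^ 2 = ∏ p, hh p (f p) ^ 2 := fun f => (Finset.prod_pow _ _ _).symm
    simp only [h1]
    rw [← Finset.prod_univ_sum (fun p : Bool × Fin 3 => B p.2) fun p x => hh p x ^ 2]
    refine Finset.prod_eq_one fun p _ => ?_
    simp only [hhdef]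
    split_ifs
    · exact hqB1 _
    · exact hu1 _
  · intro i hi f
    refine Finset.prod_congr rfl fun p _ => ?_
    rw [prodHom_apply, Psi_of, wgen, if_neg hi]
    obtain ⟨e, y⟩ := p
    cases e with
    | true => exact hqV y i hi _
    | false =>
      show u y (ρ y (if act i y = true then FreeGroup.of 0 else 1) (f (false, y))) =
        u y (f (false, y))
      by_cases h2 : act i y = true
      · rw [if_pos h2]
        exact huR y _
      · rw [if_neg h2, map_one]
        rfl
  · have h3 : ∀ g : Bool × Fin 3 → ℝ, ∏ p, g p = ∏ y, g (true, y) * g (false, y) := by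
      intro g
      rw [Fintype.prod_prod_type, Fintype.prod_bool, ← Finset.prod_mul_distrib]
    have h1 : ∀ f : (∀ p : Bool × Fin 3, X p.2),
        (∏ p, hh p (f p)) * (∏ p, hh p (prodHom ρ (FreeGroup.of 0) f p)) =
        ∏ p : Bool × Fin 3, (u p.2 (f p) * q p.2 (f p)) := by
      intro f
      have h2 : ∀ p : Bool × Fin 3, prodHom ρ (FreeGroup.of 0) f p = f (!p.1, p.2) := by
        intro p
        rw [prodHom_apply, Psi_of]
        simp only [wgen, if_true, Pi.one_apply, map_one]
        rfl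
      simp only [h2]
      rw [h3, h3, h3, ← Finset.prod_mul_distrib]
      refine Finset.prod_congr rfl fun y _ => ?_
      show (q y (f (true, y)) * u y (f (false, y))) * (q y (f (false, y)) * u y (f (true, y))) =
        (u y (f (true, y)) * q y (f (true, y))) * (u y (f (false, y)) * q y (f (false, y)))
      ring
    simp only [h1]
    rw [← Finset.prod_univ_sum (fun p : Bool × Fin 3 => B p.2) fun p x => u p.2 x * q p.2 x, h3]
    refine Finset.prod_congr rfl fun y _ => ?_
    simp only [huq]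
    exact Real.mul_self_sqrt (by have := ht0 y; linarith)

/-- The base case. -/
theorem good_base (Λ : Set (ℕ → Fin 3)) : ∃ t, Good (NL Λ) t := by
  classical
  let X : Type := F4 ⧸ NL Λ
  let ρ : F4 →* Perm X := MulAction.toPermHom F4 X
  have hρ : ∀ g h : F4, ρ g (QuotientGroup.mk h : X) = (QuotientGroup.mk (g * h) : X) :=
    fun g h => rfl
  let O : Finset X := {(QuotientGroup.mk 1 : X), (QuotientGroup.mk (FreeGroup.of 1) : X),
    (QuotientGroup.mk (FreeGroup.of 2) : X), (QuotientGroup.mk (FreeGroup.of 3) : X)}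
  have hO : O.Nonempty := ⟨_, Finset.mem_insert_self _ _⟩
  have hc : (0 : ℝ) < O.card := by exact_mod_cast Finset.card_pos.2 hO
  have hsq : ∀ i : Fin 4, (QuotientGroup.mk (FreeGroup.of i * FreeGroup.of i) : X) =
      QuotientGroup.mk 1 := by
    intro i
    refine QuotientGroup.eq.2 ?_
    rw [mul_one]
    exact (NL Λ).inv_mem (of_sq_mem Λ i)
  have hmul : ∀ i j k : Fin 4, i ≠ 0 → j ≠ 0 → k ≠ 0 → (∀ y, act k y = (act i y != act j y)) →
      (QuotientGroup.mk (FreeGroup.of i * FreeGroup.of j) : X) =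
      QuotientGroup.mk (FreeGroup.of k) := by
    intro i j k hi hj hk h
    have h1 := of_mul_mem Λ i j k hi hj hk h
    refine (QuotientGroup.eq.2 ?_)
    have h2 := (inferInstance : (NL Λ).Normal).mem_comm h1
    have h3 := (NL Λ).inv_mem h1
    have h4 : (FreeGroup.of i * FreeGroup.of j)⁻¹ * FreeGroup.of k ∈ NL Λ := by
      have h5 := (NL Λ).inv_mem h2
      simpa [mul_assoc] using h5
    exact h4
  have hOmem : ∀ i : Fin 4, i ≠ 0 → ∀ x ∈ O, ρ (FreeGroup.of i) x ∈ O := by
    intro i hi x hx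
    simp only [O, Finset.mem_insert, Finset.mem_singleton] at hx ⊢
    have hi3 : i = 1 ∨ i = 2 ∨ i = 3 := by
      revert hi
      revert i
      decide
    rcases hi3 with rfl | rfl | rfl <;> rcases hx with rfl | rfl | rfl | rfl
    · right; left; rw [hρ, mul_one]
    · left; rw [hρ, hsq]
    · right; right; right; rw [hρ, hmul 1 2 3 (by decide) (by decide) (by decide) (by decide)]
    · right; right; left; rw [hρ, hmul 1 3 2 (by decide) (by decide) (by decide) (by decide)]
    · right; right; left; rw [hρ, mul_one]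
    · right; right; right; rw [hρ, hmul 2 1 3 (by decide) (by decide) (by decide) (by decide)]
    · left; rw [hρ, hsq]
    · right; left; rw [hρ, hmul 2 3 1 (by decide) (by decide) (by decide) (by decide)]
    · right; right; right; rw [hρ, mul_one]
    · right; right; left; rw [hρ, hmul 3 1 2 (by decide) (by decide) (by decide) (by decide)]
    · right; left; rw [hρ, hmul 3 2 1 (by decide) (by decide) (by decide) (by decide)]
    · left; rw [hρ, hsq]
  have hN : ∀ g ∈ NL Λ, ρ g = 1 := by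
    intro g hg
    ext1 x
    obtain ⟨h, rfl⟩ := QuotientGroup.mk_surjective x
    rw [hρ]
    refine QuotientGroup.eq.2 ?_
    have h1 := (inferInstance : (NL Λ).Normal).conj_mem _ ((NL Λ).inv_mem hg) h⁻¹
    simpa [mul_assoc] using h1
  have hinv : ∀ (i : Fin 4) x, ρ (FreeGroup.of i) (ρ (FreeGroup.of i) x) = x := by
    intro i x
    rw [← Perm.mul_apply, ← map_mul, hN _ (of_sq_mem Λ i)]
    rfl
  refine ⟨_, X, ρ, fun x => if x ∈ O then 1 / Real.sqrt O.card else 0, O, hN, ?_, ?_, ?_, ?_, ?_,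
    rfl⟩
  · intro x x'
    refine Set.Subsingleton.finite ?_
    rintro _ ⟨g, hg, rfl⟩ _ ⟨g', hg', rfl⟩
    obtain ⟨h, rfl⟩ := QuotientGroup.mk_surjective x
    have h1 : (QuotientGroup.mk (g * h) : X) = QuotientGroup.mk (g' * h) := by
      have h2 : ρ g (QuotientGroup.mk h : X) = x' := hg
      have h3 : ρ g' (QuotientGroup.mk h : X) = x' := hg'
      rw [← hρ, ← hρ, h2, h3]
    refine QuotientGroup.eq.2 ?_
    have h4 := QuotientGroup.eq.1 h1
    have h5 := (inferInstance : (NL Λ).Normal).conj_mem _ h4 h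
    simpa [mul_assoc] using h5
  · intro x
    simp only
    split_ifs
    · positivity
    · exact le_rfl
  · intro x hx
    simp [hx]
  · have : ∀ x ∈ O, (if x ∈ O then 1 / Real.sqrt O.card else 0) ^ 2 = 1 / (O.card : ℝ) := by
      intro x hx
      rw [if_pos hx, div_pow, one_pow, Real.sq_sqrt hc.le]
    rw [Finset.sum_congr rfl this, Finset.sum_const, nsmul_eq_mul]
    field_simp
  · intro i hi x
    have h1 : ρ (FreeGroup.of i) x ∈ O ↔ x ∈ O := by
      refine ⟨fun h => ?_, hOmem i hi x⟩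
      have := hOmem i hi _ h
      rwa [hinv] at this
    simp only [h1]

/-- The empty case. -/
theorem good_empty (Λ : Set (ℕ → Fin 3)) (h : ¬ Λ.Nonempty) : Good (NL Λ) 1 := by
  classical
  have hN : ∀ g : F4, g ∈ NL Λ := by
    intro g
    rw [mem_NL]
    intro ω hω
    exact absurd ⟨ω, hω⟩ h
  refine ⟨Unit, 1, fun _ => 1, {()}, fun _ _ => rfl, ?_, fun _ => zero_le_one, ?_, by simp,
    fun _ _ _ => rfl, by simp⟩
  · intro x x'
    refine Set.Subsingleton.finite ?_
    rintro _ ⟨g, _, rfl⟩ _ ⟨g', _, rfl⟩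
    exact QuotientGroup.eq.2 (hN _)
  · intro x hx
    exact absurd (Finset.mem_singleton.2 rfl) hx

end Pool.Agent.helper7.UG
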