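import Mathlib

set_option autoImplicit false

/-!
# The groups `G_ω` and the wreath recursion on the free group of rank four
-/

namespace Pool.Agent.helper7.UG

open Equiv

/-- The free group on `a, b, c, d` (numbered `0, 1, 2, 3`). -/
abbrev F4 : Type := FreeGroup (Fin 4)

/-- The section table: whether `β`, `ζ`, `δ` (for the generators `b, c, d`, numbered `1, 2, 3`)
takes the value `a` at the letter `y`. The exceptional pairs are `β(2) = ζ(1) = δ(0) = 1`. -/
def act (i : Fin 4) (y : Fin 3) : Bool := decide (i ≠ 0 ∧ (i : ℕ) + (y : ℕ) ≠ 3)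

/-- The automorphism `a` of the binary tree. -/
def flip : List Bool → List Bool
  | [] => []
  | x :: w => (!x) :: w

/-- The automorphisms `b_ω`, `c_ω`, `d_ω` of the binary tree. -/
def dirAct (i : Fin 4) : (ℕ → Fin 3) → List Bool → List Bool
  | _, [] => []
  | ω, false :: w => false :: (if act i (ω 0) then flip w else w)
  | ω, true :: w => true :: dirAct i (fun n => ω (n + 1)) w

/-- The generators of `G_ω`. -/
def gen (i : Fin 4) (ω : ℕ → Fin 3) : List Bool → List Bool :=
  if i = 0 then flip else dirAct i ω

theorem flip_invol : Function.Involutive flip := by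
  intro l
  cases l with
  | nil => rfl
  | cons x w => simp [flip]

theorem dirAct_invol (i : Fin 4) (ω : ℕ → Fin 3) : Function.Involutive (dirAct i ω) := by
  intro l
  induction l generalizing ω with
  | nil => rfl
  | cons x w ih =>
    cases x with
    | false =>
      simp only [dirAct]
      split_ifs with h
      · rw [flip_invol w]
      · rfl
    | true =>
      simp only [dirAct]
      rw [ih]

theorem gen_invol (i : Fin 4) (ω : ℕ → Fin 3) : Function.Involutive (gen i ω) := by
  unfold gen
  split_ifs
  · exact flip_invol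
  · exact dirAct_invol i ω

/-- The homomorphism from the free group onto `G_ω`. -/
def homω (ω : ℕ → Fin 3) : F4 →* Perm (List Bool) :=
  FreeGroup.lift fun i => (gen_invol i ω).toPerm

theorem homω_of (ω : ℕ → Fin 3) (i : Fin 4) (l : List Bool) :
    homω ω (FreeGroup.of i) l = gen i ω l := by
  simp [homω]

/-- The intersection of the kernels over a set of sequences. -/
def NL (Λ : Set (ℕ → Fin 3)) : Subgroup F4 := ⨅ ω ∈ Λ, (homω ω).ker

theorem mem_NL (Λ : Set (ℕ → Fin 3)) (g : F4) : g ∈ NL Λ ↔ ∀ ω ∈ Λ, homω ω g = 1 := by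
  simp [NL, Subgroup.mem_iInf, MonoidHom.mem_ker]

instance (Λ : Set (ℕ → Fin 3)) : (NL Λ).Normal := by
  constructor
  intro n hn g
  rw [mem_NL] at hn ⊢
  intro ω hω
  rw [map_mul, map_mul, hn ω hω, mul_one, ← map_mul, mul_inv_cancel, map_one]

/-- Relations in `G_ω`. -/
theorem dir_mul (ω : ℕ → Fin 3) (l : List Bool) (i j k : Fin 4)
    (h : ∀ y, act k y = (act i y != act j y)) :
    dirAct i ω (dirAct j ω l) = dirAct k ω l := by
  induction l generalizing ω with
  | nil => rfl
  | cons x w ih =>
    cases x with
    | false =>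
      simp only [dirAct]
      have h1 := h (ω 0)
      cases hi : act i (ω 0) <;> cases hj : act j (ω 0) <;> rw [hi, hj] at h1 <;>
        simp [h1, flip_invol w]
    | true =>
      simp only [dirAct]
      rw [ih]

theorem of_sq_mem (Λ : Set (ℕ → Fin 3)) (i : Fin 4) :
    (FreeGroup.of i * FreeGroup.of i : F4) ∈ NL Λ := by
  rw [mem_NL]
  intro ω _
  ext1 l
  rw [map_mul, Perm.mul_apply, homω_of, homω_of, gen_invol]
  rfl

theorem of_mul_mem (Λ : Set (ℕ → Fin 3)) (i j k : Fin 4) (hi : i ≠ 0) (hj : j ≠ 0) (hk : k ≠ 0)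
    (h : ∀ y, act k y = (act i y != act j y)) :
    (FreeGroup.of i * FreeGroup.of j * (FreeGroup.of k)⁻¹ : F4) ∈ NL Λ := by
  rw [mem_NL]
  intro ω _
  rw [map_mul, map_inv, mul_inv_eq_one]
  ext1 l
  rw [map_mul, Perm.mul_apply, homω_of, homω_of, homω_of]
  simp only [gen, hi, hj, hk, if_false]
  exact dir_mul ω l i j k h

/-! ### The wreath recursion -/

/-- The wreath product receiving the recursion. -/
abbrev Wr : Type := (Bool → Fin 3 → F4) ⋊[mulAutArrow] (Perm Bool)

/-- Images of the generators. -/
def wgen (i : Fin 4) : Wr :=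
  if i = 0 then ⟨1, Equiv.boolNot⟩
  else ⟨fun e y => if e then FreeGroup.of i else if act i y then FreeGroup.of 0 else 1, 1⟩

/-- The wreath recursion. -/
def Psi : F4 →* Wr := FreeGroup.lift wgen

theorem Psi_of (i : Fin 4) : Psi (FreeGroup.of i) = wgen i := by simp [Psi]

theorem mul_left_apply (x y : Wr) (e : Bool) (z : Fin 3) :
    (x * y).left e z = x.left e z * y.left (x.right⁻¹ e) z := rfl

theorem mul_right_apply (x y : Wr) : (x * y).right = x.right * y.right := rfl

/-- The action of the wreath product on the tree, through a given letter and homomorphism. -/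
@[instance_reducible]
def treeAction (y : Fin 3) (τ : F4 →* Perm (List Bool)) : MulAction Wr (List Bool) where
  smul w l := match l with
    | [] => []
    | e :: l => w.right e :: τ (w.left (w.right e) y) l
  one_smul := by
    intro l
    cases l with
    | nil => rfl
    | cons e l =>
      show (1 : Wr).right e :: τ ((1 : Wr).left ((1 : Wr).right e) y) l = e :: l
      simp
  mul_smul := by
    intro w v l
    cases l with
    | nil => rfl
    | cons e l =>
      show (w * v).right e :: τ ((w * v).left ((w * v).right e) y) l =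
        w.right (v.right e) :: τ (w.left (w.right (v.right e)) y)
          (τ (v.left (v.right e) y) l)
      have h1 : w.right⁻¹ (w.right (v.right e)) = v.right e := w.right.symm_apply_apply _
      rw [mul_left_apply, mul_right_apply, Perm.mul_apply, map_mul, Perm.mul_apply, h1]

/-- The shift. -/
def shift (ω : ℕ → Fin 3) : ℕ → Fin 3 := fun n => ω (n + 1)

theorem homω_eq (ω : ℕ → Fin 3) :
    homω ω = (@MulAction.toPermHom Wr (List Bool) _
      (treeAction (ω 0) (homω (shift ω)))).comp Psi := by
  refine FreeGroup.ext_hom _ _ fun i => ?_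
  ext1 l
  rw [homω_of, MonoidHom.comp_apply, Psi_of]
  show gen i ω l = (treeAction (ω 0) (homω (shift ω))).smul (wgen i) l
  cases l with
  | nil =>
    show gen i ω [] = []
    unfold gen
    split_ifs <;> rfl
  | cons e l =>
    show gen i ω (e :: l) = (wgen i).right e ::
      homω (shift ω) ((wgen i).left ((wgen i).right e) (ω 0)) l
    unfold gen wgen
    by_cases h : i = 0
    · simp [h, flip]
    · simp only [h, if_false]
      cases e with
      | true =>
        simp only [dirAct, Perm.coe_one, id_eq, if_true]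
        rw [homω_of]
        simp only [gen, h, if_false]
        rfl
      | false =>
        simp only [dirAct, Perm.coe_one, id_eq]
        by_cases h2 : act i (ω 0) = true
        · simp only [h2, if_true]
          rw [if_neg (by decide), homω_of]
          simp [gen]
        · simp [h2]

theorem homω_nil (ω : ℕ → Fin 3) (g : F4) : homω ω g [] = [] := by
  rw [homω_eq]
  rfl

theorem homω_cons (ω : ℕ → Fin 3) (g : F4) (e : Bool) (l : List Bool) :
    homω ω g (e :: l) = (Psi g).right e ::
      homω (shift ω) ((Psi g).left ((Psi g).right e) (ω 0)) l := by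
  rw [homω_eq]
  rfl

theorem homω_eq_one_iff (ω : ℕ → Fin 3) (g : F4) :
    homω ω g = 1 ↔ (Psi g).right = 1 ∧ ∀ e, homω (shift ω) ((Psi g).left e (ω 0)) = 1 := by
  constructor
  · intro h
    have h1 : (Psi g).right = 1 := by
      ext1 e
      have h2 := homω_cons ω g e []
      rw [h] at h2
      have h3 := (List.cons.inj h2).1
      exact h3.symm
    refine ⟨h1, fun e => ?_⟩
    ext1 l
    have h2 := homω_cons ω g e l
    rw [h, h1] at h2
    exact ((List.cons.inj h2).2).symm
  · rintro ⟨h1, h2⟩
    ext1 l
    cases l with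
    | nil => rw [homω_nil]; rfl
    | cons e l =>
      rw [homω_cons, h1, h2]
      rfl

/-- Putting a letter in front of a sequence. -/
def consω (y : Fin 3) (ω : ℕ → Fin 3) : ℕ → Fin 3
  | 0 => y
  | n + 1 => ω n

theorem shift_cons (y : Fin 3) (ω : ℕ → Fin 3) : shift (consω y ω) = ω := rfl

theorem cons_shift (ω : ℕ → Fin 3) : consω (ω 0) (shift ω) = ω := by
  funext n
  cases n <;> rfl

/-- The sequences which may follow the letter `y`. -/
def child (Λ : Set (ℕ → Fin 3)) (y : Fin 3) : Set (ℕ → Fin 3) := {ω | consω y ω ∈ Λ}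

theorem mem_NL_iff (Λ : Set (ℕ → Fin 3)) (hΛ : Λ.Nonempty) (g : F4) :
    g ∈ NL Λ ↔ (Psi g).right = 1 ∧ ∀ e y, (Psi g).left e y ∈ NL (child Λ y) := by
  rw [mem_NL]
  constructor
  · intro h
    obtain ⟨ω0, hω0⟩ := hΛ
    refine ⟨((homω_eq_one_iff ω0 g).1 (h ω0 hω0)).1, fun e y => ?_⟩
    rw [mem_NL]
    intro ω hω
    exact ((homω_eq_one_iff _ g).1 (h _ hω)).2 e
  · rintro ⟨h1, h2⟩ ω hω
    rw [homω_eq_one_iff]
    refine ⟨h1, fun e => ?_⟩
    have h3 := h2 e (ω 0)
    rw [mem_NL] at h3
    refine h3 (shift ω) ?_
    show consω (ω 0) (shift ω) ∈ Λ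
    rwa [cons_shift]

end Pool.Agent.helper7.UG
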